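import Mathlib

-- part Pool.Agent.P.MP_73700b_an.CoverCore
section

/-!
Point-finite covering by balls after renorming a Hilbert space: the geometric core.
-/

namespace Pool.Agent.P.MP_73700b_an.Cover

open scoped RealInnerProductSpace

/-- Number of repetitions at level `m`. -/
def NN (m : ℕ) : ℕ := 6401 * 4 ^ m

/-- Levels with repetitions. -/
abbrev Lv : Type := Σ m : ℕ, Fin (NN m)

/-- The scale `2^(-m-2)`. -/
noncomputable def sc (m : ℕ) : ℝ := (1 / 2 : ℝ) ^ m / 4

lemma sc_pos (m : ℕ) : 0 < sc m := by unfold sc; positivity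

lemma sc_le (m : ℕ) : sc m ≤ 1 / 4 := by
  unfold sc
  have : (1 / 2 : ℝ) ^ m ≤ 1 := pow_le_one₀ (by norm_num) (by norm_num)
  linarith

lemma NN_mul_sc (m : ℕ) : 400 < (NN m : ℝ) * sc m ^ 2 := by
  unfold NN sc
  have h : (4 : ℝ) ^ m * ((1 / 2 : ℝ) ^ m) ^ 2 = 1 := by
    rw [← pow_mul, mul_comm m 2, pow_mul, ← mul_pow]; norm_num
  push_cast
  have : (6401 * 4 ^ m : ℝ) * ((1 / 2 : ℝ) ^ m / 4) ^ 2
      = 6401 / 16 * ((4 : ℝ) ^ m * ((1 / 2 : ℝ) ^ m) ^ 2) := by ring
  rw [this, h]; norm_num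

/-- The data of the construction. -/
structure Data (H : Type*) [NormedAddCommGroup H] [InnerProductSpace ℝ H] (J : Type*) where
  y : J → H
  w : J → H
  e : J × Lv → H
  hy : ∀ j, ‖y j‖ ≤ 1
  on : Orthonormal ℝ (Sum.elim w e)
  dense : ∀ x : H, ‖x‖ = 1 → ∀ ε : ℝ, 0 < ε → {j | ‖y j - x‖ < ε}.Infinite

variable {H : Type*} [NormedAddCommGroup H] [InnerProductSpace ℝ H]

lemma bessel_finite {ι : Type*} {v : ι → H} (hv : Orthonormal ℝ v) (x : H) {η : ℝ}
    (hη : 0 < η) : {i | η ≤ ⟪v i, x⟫}.Finite := by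
  have h := (hv.inner_products_summable x).tendsto_cofinite_zero
  have h2 := h.eventually (gt_mem_nhds (show (0 : ℝ) < η ^ 2 by positivity))
  rw [Filter.eventually_cofinite] at h2
  refine h2.subset fun i hi => ?_
  simp only [Set.mem_ofPred_eq, not_lt] at hi ⊢
  rw [Real.norm_eq_abs, sq_abs]
  exact pow_le_pow_left₀ hη.le hi 2

namespace Data

variable {J : Type*} (d : Data H J)

lemma on_w : Orthonormal ℝ d.w := d.on.comp Sum.inl Sum.inl_injective

lemma on_e : Orthonormal ℝ d.e := d.on.comp Sum.inr Sum.inr_injective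

lemma norm_w (j : J) : ‖d.w j‖ = 1 := d.on_w.1 j

lemma norm_e (p : J × Lv) : ‖d.e p‖ = 1 := d.on_e.1 p

lemma inner_w_e (j : J) (p : J × Lv) : ⟪d.w j, d.e p⟫ = 0 :=
  d.on.2 (show (Sum.inl j : J ⊕ J × Lv) ≠ Sum.inr p from Sum.inl_ne_inr)

lemma inner_e_w (j : J) (p : J × Lv) : ⟪d.e p, d.w j⟫ = 0 := by
  rw [real_inner_comm]; exact d.inner_w_e j p

lemma inner_w_w {i j : J} (h : i ≠ j) : ⟪d.w i, d.w j⟫ = 0 := d.on_w.2 h

lemma inner_e_e {p q : J × Lv} (h : p ≠ q) : ⟪d.e p, d.e q⟫ = 0 := d.on_e.2 h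

lemma inner_w_self (j : J) : ⟪d.w j, d.w j⟫ = 1 := by
  rw [real_inner_self_eq_norm_sq, d.norm_w]; norm_num

lemma inner_e_self (p : J × Lv) : ⟪d.e p, d.e p⟫ = 1 := by
  rw [real_inner_self_eq_norm_sq, d.norm_e]; norm_num

/-- The norming functionals. -/
noncomputable def f (j : J) (z : H) : ℝ := (1 / 10) * ⟪d.y j, z⟫ + ⟪d.w j, z⟫

lemma f_add (j : J) (a b : H) : d.f j (a + b) = d.f j a + d.f j b := by
  simp only [f, inner_add_right]; ring

lemma f_sub (j : J) (a b : H) : d.f j (a - b) = d.f j a - d.f j b := by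
  simp only [f, inner_sub_right]; ring

lemma f_smul (j : J) (t : ℝ) (a : H) : d.f j (t • a) = t * d.f j a := by
  simp only [f, real_inner_smul_right]; ring

lemma abs_inner_y (j : J) (z : H) : |⟪d.y j, z⟫| ≤ ‖z‖ := by
  refine (abs_real_inner_le_norm _ _).trans ?_
  have := d.hy j
  nlinarith [norm_nonneg z]

lemma abs_inner_w (j : J) (z : H) : |⟪d.w j, z⟫| ≤ ‖z‖ := by
  refine (abs_real_inner_le_norm _ _).trans ?_
  rw [d.norm_w]; simp

lemma abs_inner_e (p : J × Lv) (z : H) : |⟪d.e p, z⟫| ≤ ‖z‖ := by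
  refine (abs_real_inner_le_norm _ _).trans ?_
  rw [d.norm_e]; simp

lemma abs_f_le (j : J) (z : H) : |d.f j z| ≤ 11 / 10 * ‖z‖ := by
  have h1 := abs_le.1 (d.abs_inner_y j z)
  have h2 := abs_le.1 (d.abs_inner_w j z)
  unfold f
  rw [abs_le]; constructor <;> linarith [h1.1, h1.2, h2.1, h2.2]

lemma abs_f_e (j : J) (p : J × Lv) : |d.f j (d.e p)| ≤ 1 / 10 := by
  have h1 := abs_le.1 (d.abs_inner_y j (d.e p))
  rw [d.norm_e] at h1
  unfold f
  rw [d.inner_w_e, abs_le]; constructor <;> linarith [h1.1, h1.2]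

lemma abs_f_w {i j : J} (h : i ≠ j) : |d.f i (d.w j)| ≤ 1 / 10 := by
  have h1 := abs_le.1 (d.abs_inner_y i (d.w j))
  rw [d.norm_w] at h1
  unfold f
  rw [d.inner_w_w h, abs_le]; constructor <;> linarith [h1.1, h1.2]

lemma f_w_self (j : J) : 9 / 10 ≤ d.f j (d.w j) := by
  have h1 := abs_le.1 (d.abs_inner_y j (d.w j))
  rw [d.norm_w] at h1
  unfold f
  rw [d.inner_w_self]; linarith [h1.1]

/-- The functionals `f j` are norming. -/
lemma norm_le_of_f_le [Nonempty J] {z : H} {M : ℝ} (h : ∀ j, d.f j z ≤ M) : ‖z‖ ≤ 10 * M := by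
  by_contra hlt
  push Not at hlt
  rcases eq_or_ne z 0 with rfl | hz
  · obtain ⟨j⟩ := ‹Nonempty J›
    have := h j
    simp only [f, inner_zero_right, mul_zero, add_zero, norm_zero] at this hlt
    linarith
  have hzpos : 0 < ‖z‖ := norm_pos_iff.2 hz
  set x : H := ‖z‖⁻¹ • z with hx
  have hx1 : ‖x‖ = 1 := by
    rw [hx, norm_smul, norm_inv, norm_norm, inv_mul_cancel₀ hzpos.ne']
  set ε : ℝ := (‖z‖ - 10 * M) / (‖z‖ + 10) with hε
  have hεpos : 0 < ε := div_pos (by linarith) (by linarith)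
  have hεeq : ε * (‖z‖ + 10) = ‖z‖ - 10 * M := by
    rw [hε]; field_simp
  have hinf := d.dense x hx1 ε hεpos
  have hfin := bessel_finite d.on_w (-z) hεpos
  obtain ⟨j, hj1, hj2⟩ := (hinf.sdiff hfin).nonempty
  simp only [Set.mem_ofPred_eq, inner_neg_right, not_le] at hj1 hj2
  have h3 : ⟪x, z⟫ = ‖z‖ := by
    rw [hx, real_inner_smul_left, real_inner_self_eq_norm_sq]; field_simp
  have h4 : |⟪d.y j - x, z⟫| ≤ ε * ‖z‖ :=
    (abs_real_inner_le_norm _ _).trans (mul_le_mul_of_nonneg_right hj1.le hzpos.le)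
  rw [inner_sub_left, h3] at h4
  have h5 := (abs_le.1 h4).1
  have h6 := h j
  unfold f at h6
  nlinarith

/-- The coefficient of `w` in the centre. -/
noncomputable def lam (p : J × Lv) : ℝ :=
  (101 + 2 * sc p.2.1 - 300 * d.f p.1 (d.e p)) / d.f p.1 (d.w p.1)

/-- The centres. -/
noncomputable def c (p : J × Lv) : H := (300 : ℝ) • d.e p + d.lam p • d.w p.1

lemma lam_bounds (p : J × Lv) : 0 ≤ d.lam p ∧ d.lam p ≤ 147 := by
  have h1 := abs_le.1 (d.abs_f_e p.1 p)
  have h2 := d.f_w_self p.1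
  have h3 := sc_pos p.2.1
  have h4 := sc_le p.2.1
  unfold lam
  constructor
  · apply div_nonneg <;> linarith [h1.1, h1.2]
  · rw [div_le_iff₀ (by linarith)]; linarith [h1.1, h1.2]

lemma f_c_self (p : J × Lv) : d.f p.1 (d.c p) = 101 + 2 * sc p.2.1 := by
  have h2 := d.f_w_self p.1
  unfold c
  rw [f_add, f_smul, f_smul]
  unfold lam
  rw [div_mul_cancel₀ _ (by linarith)]; ring

lemma abs_f_c_ne {i : J} {p : J × Lv} (h : i ≠ p.1) : |d.f i (d.c p)| ≤ 45 := by
  have h1 := abs_le.1 (d.abs_f_e i p)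
  have h2 := abs_le.1 (d.abs_f_w h)
  obtain ⟨h3, h4⟩ := d.lam_bounds p
  unfold c
  rw [f_add, f_smul, f_smul, abs_le]
  constructor <;> nlinarith [h1.1, h1.2, h2.1, h2.2]

lemma abs_f_c (i : J) (p : J × Lv) : |d.f i (d.c p)| ≤ 102 := by
  rcases eq_or_ne i p.1 with rfl | h
  · rw [d.f_c_self, abs_le]
    have h3 := sc_pos p.2.1
    have h4 := sc_le p.2.1
    constructor <;> linarith
  · exact (d.abs_f_c_ne h).trans (by norm_num)

lemma inner_e_c_self (p : J × Lv) : ⟪d.e p, d.c p⟫ = 300 := by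
  unfold c
  rw [inner_add_right, real_inner_smul_right, real_inner_smul_right, d.inner_e_self,
    d.inner_e_w]; ring

lemma inner_e_c_ne {p q : J × Lv} (h : q ≠ p) : ⟪d.e q, d.c p⟫ = 0 := by
  unfold c
  rw [inner_add_right, real_inner_smul_right, real_inner_smul_right, d.inner_e_e h,
    d.inner_e_w]; ring

lemma norm_c (p : J × Lv) : ‖d.c p‖ ≤ 447 := by
  obtain ⟨h3, h4⟩ := d.lam_bounds p
  unfold c
  refine (norm_add_le _ _).trans ?_
  rw [norm_smul, norm_smul, d.norm_e, d.norm_w, Real.norm_eq_abs, Real.norm_eq_abs,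
    abs_of_nonneg h3, abs_of_nonneg (by norm_num)]
  linarith

/-- The oblique walls. -/
noncomputable def φ (i : J) (p : J × Lv) (z : H) : ℝ := d.f i z - ⟪d.e p, z⟫

lemma φ_add (i : J) (p : J × Lv) (a b : H) : d.φ i p (a + b) = d.φ i p a + d.φ i p b := by
  simp only [φ, f_add, inner_add_right]; ring

lemma φ_sub (i : J) (p : J × Lv) (a b : H) : d.φ i p (a - b) = d.φ i p a - d.φ i p b := by
  simp only [φ, f_sub, inner_sub_right]; ring

lemma φ_smul (i : J) (p : J × Lv) (t : ℝ) (a : H) : d.φ i p (t • a) = t * d.φ i p a := by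
  simp only [φ, f_smul, real_inner_smul_right]; ring

lemma abs_φ_le (i : J) (p : J × Lv) (z : H) : |d.φ i p z| ≤ 21 / 10 * ‖z‖ := by
  have h1 := abs_le.1 (d.abs_f_le i z)
  have h2 := abs_le.1 (d.abs_inner_e p z)
  unfold φ
  rw [abs_le]; constructor <;> linarith [h1.1, h1.2, h2.1, h2.2]

open Classical in
/-- The thresholds. -/
noncomputable def θ (i : J) (p : J × Lv) : ℝ :=
  if i = p.1 then 1 + 5 * sc p.2.1 else 1 + sc p.2.1

lemma one_le_θ (i : J) (p : J × Lv) : 1 ≤ θ i p := by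
  have := sc_pos p.2.1
  unfold θ; split_ifs <;> linarith

/-- The widths of the oblique walls. -/
noncomputable def t (i : J) (p : J × Lv) : ℝ := θ i p - d.φ i p (d.c p)

lemma φ_c_self (i : J) (p : J × Lv) : d.φ i p (d.c p) ≤ -198 := by
  have h := abs_le.1 (d.abs_f_c i p)
  unfold φ
  rw [d.inner_e_c_self]; linarith [h.2]

lemma t_ge (i : J) (p : J × Lv) : 199 ≤ d.t i p := by
  have h1 := d.φ_c_self i p
  have h2 := one_le_θ i p
  unfold t; linarith

variable [LinearOrder J]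

/-- The unit ball of the new norm. -/
def InD (z : H) : Prop :=
  (∀ j, |d.f j z| ≤ 100) ∧ ∀ i p, i ≤ p.1 → |d.φ i p z| ≤ d.t i p

lemma InD.norm_le [Nonempty J] {z : H} (h : d.InD z) : ‖z‖ ≤ 1000 := by
  have := d.norm_le_of_f_le (M := 100) fun j => (abs_le.1 (h.1 j)).2
  linarith

/-- Points of a translated ball satisfy the three defining inequalities. -/
lemma InD.conds {z : H} {p : J × Lv} (h : d.InD (z - d.c p)) :
    1 + 2 * sc p.2.1 ≤ d.f p.1 z ∧ (∀ i, i < p.1 → d.f i z - ⟪d.e p, z⟫ ≤ 1 + sc p.2.1) ∧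
      d.f p.1 z - ⟪d.e p, z⟫ ≤ 1 + 5 * sc p.2.1 := by
  refine ⟨?_, fun i hi => ?_, ?_⟩
  · have := (abs_le.1 (h.1 p.1)).1
    rw [f_sub, f_c_self] at this
    linarith
  · have := (abs_le.1 (h.2 i p hi.le)).2
    rw [φ_sub] at this
    unfold t θ at this
    rw [if_neg hi.ne] at this
    unfold φ at this
    linarith
  · have := (abs_le.1 (h.2 p.1 p le_rfl)).2
    rw [φ_sub] at this
    unfold t θ at this
    rw [if_pos rfl] at this
    unfold φ at this
    linarith

/-- Conversely, for points of norm at most 20 the three inequalities suffice. -/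
lemma inD_of_conds {z : H} {p : J × Lv} (hz : ‖z‖ ≤ 20)
    (h1 : 1 + 2 * sc p.2.1 ≤ d.f p.1 z)
    (h2 : ∀ i, i < p.1 → d.f i z - ⟪d.e p, z⟫ ≤ 1 + sc p.2.1)
    (h3 : d.f p.1 z - ⟪d.e p, z⟫ ≤ 1 + 5 * sc p.2.1) : d.InD (z - d.c p) := by
  refine ⟨fun j => ?_, fun i q hi => ?_⟩
  · have hf := abs_le.1 (d.abs_f_le j z)
    rw [f_sub, abs_le]
    rcases eq_or_ne j p.1 with rfl | hj
    · rw [f_c_self]
      have := sc_pos p.2.1
      constructor <;> linarith [hf.1, hf.2]
    · have := abs_le.1 (d.abs_f_c_ne hj)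
      constructor <;> linarith [hf.1, hf.2, this.1, this.2]
  · have hφ := abs_le.1 (d.abs_φ_le i q z)
    rw [φ_sub, abs_le]
    rcases eq_or_ne q p with rfl | hq
    · have h4 := d.φ_c_self i q
      have h5 := one_le_θ i q
      refine ⟨by unfold t; linarith [hφ.1], ?_⟩
      have : d.φ i q z ≤ θ i q := by
        unfold θ φ
        split_ifs with hij
        · rw [hij]; exact h3
        · exact h2 i (lt_of_le_of_ne hi hij)
      unfold t; linarith
    · have h4 := d.t_ge i q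
      have h5 := abs_le.1 (d.abs_f_c i p)
      have h6 : d.φ i q (d.c p) = d.f i (d.c p) := by
        unfold φ; rw [d.inner_e_c_ne hq]; ring
      rw [h6]
      constructor <;> linarith [hφ.1, hφ.2, h5.1, h5.2]

variable [WellFoundedLT J]

/-- Covering of the basic shell. -/
lemma cover_shell [Nonempty J] {z : H} (h2 : ∀ j, d.f j z ≤ 2) (h1 : ∃ j, 1 < d.f j z) :
    ∃ p, d.InD (z - d.c p) := by
  have hz : ‖z‖ ≤ 20 := by have := d.norm_le_of_f_le h2; linarith
  obtain ⟨j, hj, hmin⟩ := WellFounded.has_min (wellFounded_lt (α := J)) {j | 1 < d.f j z} h1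
  simp only [Set.mem_ofPred_eq] at hj hmin
  obtain ⟨m, hm1, hm2⟩ := exists_nat_pow_near_of_lt_one (x := d.f j z - 1) (y := (1 / 2 : ℝ))
    (by linarith) (by linarith [h2 j]) (by norm_num) (by norm_num)
  have hm1' : 2 * sc m < d.f j z - 1 := by
    unfold sc; rw [pow_succ] at hm1; linarith
  have hm2' : d.f j z - 1 ≤ 4 * sc m := by unfold sc; linarith
  have hk : ∃ k : Fin (NN m), -sc m ≤ ⟪d.e (j, ⟨m, k⟩), z⟫ := by
    by_contra hcon
    push Not at hcon
    have hon : Orthonormal ℝ (fun k : Fin (NN m) => d.e (j, ⟨m, k⟩)) :=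
      d.on_e.comp (fun k : Fin (NN m) => ((j, ⟨m, k⟩) : J × Lv)) (fun a b hab => by
        simpa using hab)
    have hb := hon.sum_inner_products_le z (s := Finset.univ)
    have hs : ∑ _k : Fin (NN m), sc m ^ 2 ≤ ∑ k : Fin (NN m), ‖⟪d.e (j, ⟨m, k⟩), z⟫‖ ^ 2 := by
      refine Finset.sum_le_sum fun k _ => ?_
      rw [Real.norm_eq_abs, sq_abs]
      have := hcon k
      have := sc_pos m
      nlinarith
    rw [Finset.sum_const, Finset.card_univ, Fintype.card_fin, nsmul_eq_mul] at hs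
    have := NN_mul_sc m
    have : ‖z‖ ^ 2 ≤ 400 := by nlinarith [norm_nonneg z]
    linarith
  obtain ⟨k, hk⟩ := hk
  refine ⟨(j, ⟨m, k⟩), d.inD_of_conds hz (by simpa using by linarith) (fun i hi => ?_)
    (by simpa using by linarith)⟩
  have : d.f i z ≤ 1 := not_lt.1 fun h => hmin i h hi
  show d.f i z - ⟪d.e (j, ⟨m, k⟩), z⟫ ≤ 1 + sc m
  linarith

/-- Point-finiteness at one scale. -/
lemma finite_shell (z : H) : {p | d.InD (z - d.c p)}.Finite := by
  rcases Set.eq_empty_or_nonempty {p | d.InD (z - d.c p)} with h | ⟨p₀, hp₀⟩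
  · rw [h]; exact Set.finite_empty
  have hex : ∃ j, 1 < d.f j z :=
    ⟨p₀.1, by have := (InD.conds d hp₀).1; have := sc_pos p₀.2.1; linarith⟩
  obtain ⟨j₀, hj₀, hmin₀⟩ :=
    WellFounded.has_min (wellFounded_lt (α := J)) {j | 1 < d.f j z} hex
  simp only [Set.mem_ofPred_eq] at hj₀ hmin₀
  set η := d.f j₀ z - 1 with hη
  have hηpos : 0 < η := by linarith
  obtain ⟨m₀, hm₀⟩ := exists_pow_lt_of_lt_one (show 0 < η / 4 by linarith)
    (show (1 / 2 : ℝ) < 1 by norm_num)
  -- high levels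
  have hA : {p : J × Lv | d.InD (z - d.c p) ∧ m₀ ≤ p.2.1}.Finite := by
    refine (bessel_finite d.on_e z (show 0 < η / 2 by linarith)).subset ?_
    rintro p ⟨hp, hm⟩
    obtain ⟨h1, h2, h3⟩ := InD.conds d hp
    have hs : sc p.2.1 ≤ η / 16 := by
      unfold sc
      have : (1 / 2 : ℝ) ^ p.2.1 ≤ (1 / 2 : ℝ) ^ m₀ :=
        pow_le_pow_of_le_one (by norm_num) (by norm_num) hm
      linarith
    have hs0 := sc_pos p.2.1
    have hle : j₀ ≤ p.1 := not_lt.1 (hmin₀ p.1 (by linarith))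
    simp only [Set.mem_ofPred_eq]
    rcases hle.eq_or_lt with heq | hlt
    · rw [← heq] at h3; linarith
    · have := h2 j₀ hlt; linarith
  -- each fixed level
  have hB : ∀ m : ℕ, {p : J × Lv | d.InD (z - d.c p) ∧ p.2.1 = m}.Finite := by
    intro m
    rcases Set.eq_empty_or_nonempty {p : J × Lv | d.InD (z - d.c p) ∧ p.2.1 = m} with
      h | ⟨q, hq, hqm⟩
    · rw [h]; exact Set.finite_empty
    have hex' : ∃ j, 1 + 2 * sc m ≤ d.f j z := ⟨q.1, hqm ▸ (InD.conds d hq).1⟩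
    obtain ⟨j₁, hj₁, hmin₁⟩ :=
      WellFounded.has_min (wellFounded_lt (α := J)) {j | 1 + 2 * sc m ≤ d.f j z} hex'
    simp only [Set.mem_ofPred_eq] at hj₁ hmin₁
    have hfin1 := bessel_finite d.on_e z (sc_pos m)
    have hfin2 : (Set.range fun k : Fin (NN m) => ((j₁, ⟨m, k⟩) : J × Lv)).Finite :=
      Set.finite_range _
    refine (hfin1.union hfin2).subset ?_
    rintro ⟨j, m', k⟩ ⟨hp, hm⟩
    obtain rfl : m' = m := hm
    obtain ⟨h1, h2, -⟩ := InD.conds d hp
    have hle : j₁ ≤ j := not_lt.1 (hmin₁ j h1)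
    rcases hle.eq_or_lt with heq | hlt
    · right; exact ⟨k, by rw [heq]⟩
    · left
      have := h2 j₁ hlt
      simp only [Set.mem_ofPred_eq] at this ⊢
      linarith
  refine (hA.union ((Set.finite_lt_nat m₀).biUnion fun m _ => hB m)).subset fun p hp => ?_
  rcases le_or_gt m₀ p.2.1 with h | h
  · left; exact ⟨hp, h⟩
  · right; exact Set.mem_biUnion h ⟨hp, rfl⟩

/-- Covering of all nonzero points. -/
lemma cover [Nonempty J] {z : H} (hz : z ≠ 0) :
    ∃ (n : ℤ) (p : J × Lv), d.InD (((2 : ℝ) ^ n)⁻¹ • z - d.c p) := by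
  have hbdd : BddAbove (Set.range fun j => d.f j z) :=
    ⟨11 / 10 * ‖z‖, by rintro _ ⟨j, rfl⟩; exact (abs_le.1 (d.abs_f_le j z)).2⟩
  set σ := ⨆ j, d.f j z with hσ
  have hle : ∀ j, d.f j z ≤ σ := fun j => le_ciSup hbdd j
  have hσpos : 0 < σ := by
    have := d.norm_le_of_f_le hle
    have := norm_pos_iff.2 hz
    linarith
  obtain ⟨n, hn1, hn2⟩ := exists_mem_Ioc_zpow hσpos (show (1 : ℝ) < 2 by norm_num)
  have hpos : (0 : ℝ) < 2 ^ n := by positivity
  refine ⟨n, d.cover_shell (fun j => ?_) ?_⟩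
  · rw [f_smul, inv_mul_le_iff₀ hpos]
    rw [zpow_add_one₀ (by norm_num)] at hn2
    exact (hle j).trans hn2
  · obtain ⟨j, hj⟩ := exists_lt_of_lt_ciSup hn1
    refine ⟨j, ?_⟩
    rw [f_smul, lt_inv_mul_iff₀ hpos]
    simpa using hj

/-- Point-finiteness over all scales. -/
lemma finite_all [Nonempty J] (z : H) :
    {q : ℤ × (J × Lv) | d.InD (((2 : ℝ) ^ q.1)⁻¹ • z - d.c q.2)}.Finite := by
  have key : ∀ (n : ℤ) (p : J × Lv), d.InD (((2 : ℝ) ^ n)⁻¹ • z - d.c p) →
      (2 : ℝ) ^ n ≤ 2 * ‖z‖ ∧ ‖z‖ ≤ 1447 * (2 : ℝ) ^ n := by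
    intro n p h
    have hpos : (0 : ℝ) < 2 ^ n := by positivity
    have h1 := (InD.conds d h).1
    have h2 := (abs_le.1 (d.abs_f_le p.1 (((2 : ℝ) ^ n)⁻¹ • z))).2
    have h3 := InD.norm_le d h
    have h4 := d.norm_c p
    have h5 : ‖((2 : ℝ) ^ n)⁻¹ • z‖ ≤ 1447 := by
      have := norm_add_le (((2 : ℝ) ^ n)⁻¹ • z - d.c p) (d.c p)
      rw [sub_add_cancel] at this
      linarith
    have h6 : ‖((2 : ℝ) ^ n)⁻¹ • z‖ = ((2 : ℝ) ^ n)⁻¹ * ‖z‖ := by
      rw [norm_smul, Real.norm_eq_abs, abs_of_pos (inv_pos.2 hpos)]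
    have hs := sc_pos p.2.1
    rw [h6] at h5 h2
    constructor
    · have : 1 / 2 ≤ ((2 : ℝ) ^ n)⁻¹ * ‖z‖ := by linarith
      rw [le_inv_mul_iff₀ hpos] at this
      linarith
    · rw [inv_mul_le_iff₀ hpos] at h5
      linarith
  rcases eq_or_ne z 0 with rfl | hz
  · convert Set.finite_empty
    refine Set.eq_empty_of_forall_notMem fun q hq => ?_
    have := (key q.1 q.2 hq).1
    have hpos : (0 : ℝ) < 2 ^ q.1 := by positivity
    simp at this
    linarith
  have hzpos := norm_pos_iff.2 hz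
  obtain ⟨a, ha, -⟩ := exists_mem_Ioc_zpow (show 0 < ‖z‖ / 1447 by positivity)
    (show (1 : ℝ) < 2 by norm_num)
  obtain ⟨b, -, hb⟩ := exists_mem_Ioc_zpow (show 0 < 2 * ‖z‖ by positivity)
    (show (1 : ℝ) < 2 by norm_num)
  have hfin : (⋃ n ∈ Set.Icc a (b + 1),
      (fun p => ((n, p) : ℤ × (J × Lv))) '' {p | d.InD (((2 : ℝ) ^ n)⁻¹ • z - d.c p)}).Finite :=
    (Set.finite_Icc a (b + 1)).biUnion fun n _ => (d.finite_shell _).image _
  refine hfin.subset ?_
  rintro ⟨n, p⟩ h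
  obtain ⟨h1, h2⟩ := key n p h
  refine Set.mem_biUnion (x := n) ⟨?_, ?_⟩ ⟨p, h, rfl⟩
  · have : (2 : ℝ) ^ a ≤ 2 ^ n := by
      rw [lt_div_iff₀ (by norm_num)] at ha
      linarith
    exact (zpow_le_zpow_iff_right₀ (by norm_num)).1 this
  · exact (zpow_le_zpow_iff_right₀ (show (1 : ℝ) < 2 by norm_num)).1 (h1.trans hb)

end Data

end Pool.Agent.P.MP_73700b_an.Cover
end

-- part Pool.Agent.P.MP_73700b_an.CoverNorm
section

/-!
The new norm, the renormed space, and existence of the data in `ℓ²(Γ)`.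
-/

namespace Pool.Agent.P.MP_73700b_an.Cover

open scoped RealInnerProductSpace

universe u

section Renorm

variable {H : Type u} [NormedAddCommGroup H] [NormedSpace ℝ H]

/-- An equivalent norm, as a seminorm with two-sided bounds. -/
structure EqNorm (H : Type u) [NormedAddCommGroup H] [NormedSpace ℝ H] where
  p : Seminorm ℝ H
  C : ℝ
  lower : ∀ x, ‖x‖ ≤ C * p x
  upper : ∀ x, p x ≤ C * ‖x‖

/-- The renormed space. -/
def Renorm (_N : EqNorm H) : Type u := H

variable (N : EqNorm H)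

instance : AddCommGroup (Renorm N) := inferInstanceAs (AddCommGroup H)

instance : Module ℝ (Renorm N) := inferInstanceAs (Module ℝ H)

/-- The identity map. -/
def Renorm.toOrig : Renorm N ≃ₗ[ℝ] H := LinearEquiv.refl ℝ H

instance : Norm (Renorm N) := ⟨fun x => N.p (Renorm.toOrig N x)⟩

lemma Renorm.norm_def (x : Renorm N) : ‖x‖ = N.p (Renorm.toOrig N x) := rfl

lemma Renorm.core : NormedSpace.Core ℝ (Renorm N) where
  norm_nonneg x := apply_nonneg N.p _
  norm_smul c x := by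
    rw [Renorm.norm_def, Renorm.norm_def, map_smul, map_smul_eq_mul]
  norm_triangle x y := by
    rw [Renorm.norm_def, Renorm.norm_def, Renorm.norm_def, map_add]
    exact map_add_le_add _ _ _
  norm_eq_zero_iff x := by
    rw [Renorm.norm_def]
    constructor
    · intro h
      have := N.lower (Renorm.toOrig N x)
      rw [h, mul_zero, norm_le_zero_iff] at this
      exact (Renorm.toOrig N).map_eq_zero_iff.1 this
    · rintro rfl
      rw [map_zero, map_zero]

noncomputable instance : NormedAddCommGroup (Renorm N) :=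
  NormedAddCommGroup.ofCore (Renorm.core N)

noncomputable instance : NormedSpace ℝ (Renorm N) := NormedSpace.ofCore (Renorm.core N)

/-- The identity map as a linear homeomorphism. -/
noncomputable def Renorm.equiv : Renorm N ≃L[ℝ] H :=
  (Renorm.toOrig N).toContinuousLinearEquivOfBounds N.C N.C
    (fun _ => N.lower _) (fun x => N.upper x)

lemma Renorm.norm_eq (x : Renorm N) : ‖x‖ = N.p (Renorm.equiv N x) := rfl

end Renorm

/-- A space isomorphic to a Hilbert space is reflexive. -/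
lemma reflexive_of_equiv {X H : Type*} [NormedAddCommGroup X] [NormedSpace ℝ X]
    [NormedAddCommGroup H] [InnerProductSpace ℝ H] [CompleteSpace H] (e : X ≃L[ℝ] H) :
    Function.Surjective (NormedSpace.inclusionInDoubleDual ℝ X) := by
  intro Φ
  let T : H →L[ℝ] StrongDual ℝ X :=
    ((ContinuousLinearMap.compL ℝ X H ℝ).flip (e : X →L[ℝ] H)).comp (innerSL ℝ)
  have hT : ∀ h x, T h x = ⟪h, e x⟫ := fun h x => rfl
  let h₀ : H := (InnerProductSpace.toDual ℝ H).symm (Φ.comp T)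
  have hh₀ : ∀ h, ⟪h₀, h⟫ = Φ (T h) := fun h => InnerProductSpace.toDual_symm_apply
  refine ⟨e.symm h₀, ?_⟩
  ext g
  let h : H := (InnerProductSpace.toDual ℝ H).symm (g.comp (e.symm : H →L[ℝ] X))
  have hh : ∀ k, ⟪h, k⟫ = g (e.symm k) := fun k => InnerProductSpace.toDual_symm_apply
  have hg : T h = g := by
    ext x
    rw [hT, hh, ContinuousLinearEquiv.symm_apply_apply]
  rw [NormedSpace.dual_def, ← hh, real_inner_comm, hh₀, hg]

section NewNorm

variable {H : Type u} [NormedAddCommGroup H] [InnerProductSpace ℝ H]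
variable {J : Type*} [LinearOrder J] (d : Data H J)

/-- Index type of the walls. -/
abbrev Wall (J : Type*) [LinearOrder J] := J ⊕ {q : J × (J × Lv) // q.1 ≤ q.2.1}

/-- The normalised wall functionals. -/
noncomputable def Data.ψ : Wall J → H → ℝ
  | Sum.inl j, z => d.f j z / 100
  | Sum.inr q, z => d.φ q.1.1 q.1.2 z / d.t q.1.1 q.1.2

lemma Data.ψ_add (a : Wall J) (x y : H) : d.ψ a (x + y) = d.ψ a x + d.ψ a y := by
  rcases a with j | q
  · simp only [Data.ψ, Data.f_add, add_div]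
  · simp only [Data.ψ, Data.φ_add, add_div]

lemma Data.ψ_smul (a : Wall J) (s : ℝ) (x : H) : d.ψ a (s • x) = s * d.ψ a x := by
  rcases a with j | q
  · simp only [Data.ψ, Data.f_smul, mul_div_assoc]
  · simp only [Data.ψ, Data.φ_smul, mul_div_assoc]

lemma Data.abs_ψ_le (a : Wall J) (x : H) : |d.ψ a x| ≤ ‖x‖ := by
  rcases a with j | q
  · simp only [Data.ψ]
    rw [abs_div, abs_of_pos (show (0 : ℝ) < 100 by norm_num), div_le_iff₀ (by norm_num)]
    linarith [d.abs_f_le j x, norm_nonneg x]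
  · simp only [Data.ψ]
    have ht := d.t_ge q.1.1 q.1.2
    rw [abs_div, abs_of_pos (show 0 < d.t q.1.1 q.1.2 by linarith), div_le_iff₀ (by linarith)]
    nlinarith [d.abs_φ_le q.1.1 q.1.2 x, norm_nonneg x]

lemma Data.bdd (x : H) : BddAbove (Set.range fun a => |d.ψ a x|) :=
  ⟨‖x‖, by rintro _ ⟨a, rfl⟩; exact d.abs_ψ_le a x⟩

variable [Nonempty J]

/-- The new norm as a seminorm. -/
noncomputable def Data.semi : Seminorm ℝ H :=
  Seminorm.of (fun x => ⨆ a, |d.ψ a x|)
    (fun x y => ciSup_le fun a => by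
      rw [d.ψ_add]
      exact (abs_add_le _ _).trans (add_le_add (le_ciSup (d.bdd x) a) (le_ciSup (d.bdd y) a)))
    (fun s x => by
      simp only [d.ψ_smul, abs_mul]
      rw [Real.mul_iSup_of_nonneg (norm_nonneg s), Real.norm_eq_abs])

lemma Data.semi_apply (x : H) : d.semi x = ⨆ a, |d.ψ a x| := rfl

lemma Data.semi_le_one_iff (x : H) : d.semi x ≤ 1 ↔ d.InD x := by
  rw [d.semi_apply, ciSup_le_iff (d.bdd x)]
  constructor
  · intro h
    refine ⟨fun j => ?_, fun i p hi => ?_⟩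
    · have := h (Sum.inl j)
      simp only [Data.ψ] at this
      rwa [abs_div, abs_of_pos (show (0 : ℝ) < 100 by norm_num), div_le_one (by norm_num)] at this
    · have := h (Sum.inr ⟨(i, p), hi⟩)
      simp only [Data.ψ] at this
      have ht := d.t_ge i p
      rwa [abs_div, abs_of_pos (show 0 < d.t i p by linarith), div_le_one (by linarith)] at this
  · rintro ⟨h1, h2⟩ a
    rcases a with j | ⟨⟨i, p⟩, hi⟩
    · simp only [Data.ψ]
      rw [abs_div, abs_of_pos (show (0 : ℝ) < 100 by norm_num), div_le_one (by norm_num)]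
      exact h1 j
    · simp only [Data.ψ]
      have ht := d.t_ge i p
      rw [abs_div, abs_of_pos (show 0 < d.t i p by linarith), div_le_one (by linarith)]
      exact h2 i p hi

/-- The new norm is equivalent to the Hilbert norm. -/
noncomputable def Data.eqNorm : EqNorm H where
  p := d.semi
  C := 1000
  lower x := by
    have h : ∀ j, d.f j x ≤ 100 * d.semi x := by
      intro j
      have := le_ciSup (d.bdd x) (Sum.inl j)
      rw [← d.semi_apply] at this
      simp only [Data.ψ] at this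
      have := (le_abs_self _).trans this
      linarith
    have := d.norm_le_of_f_le h
    linarith
  upper x := by
    have : d.semi x ≤ ‖x‖ := by
      rw [d.semi_apply]; exact ciSup_le fun a => d.abs_ψ_le a x
    linarith [norm_nonneg x]

/-- The point-finite covering by balls of the renormed space. -/
theorem Data.covering [WellFoundedLT J] :
    ∃ 𝓑 : Set (Set (Renorm d.eqNorm)),
      (∀ B ∈ 𝓑, ∃ (x : Renorm d.eqNorm) (r : ℝ), 0 < r ∧ B = Metric.closedBall x r) ∧
      ⋃₀ 𝓑 = Set.univ ∧ ∀ y, {B ∈ 𝓑 | y ∈ B}.Finite := by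
  let E := Renorm.equiv d.eqNorm
  let ball : ℤ × (J × Lv) → Set (Renorm d.eqNorm) := fun q =>
    Metric.closedBall (E.symm (((2 : ℝ) ^ q.1) • d.c q.2)) ((2 : ℝ) ^ q.1)
  have hball : ∀ q y, y ∈ ball q ↔ d.InD (((2 : ℝ) ^ q.1)⁻¹ • E y - d.c q.2) := by
    intro q y
    have hpos : (0 : ℝ) < 2 ^ q.1 := by positivity
    rw [← d.semi_le_one_iff]
    simp only [ball, mem_closedBall_iff_norm]
    rw [Renorm.norm_eq, map_sub]
    change d.semi (E y - E (E.symm _)) ≤ _ ↔ _
    rw [ContinuousLinearEquiv.apply_symm_apply]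
    have : E y - ((2 : ℝ) ^ q.1) • d.c q.2
        = ((2 : ℝ) ^ q.1) • (((2 : ℝ) ^ q.1)⁻¹ • E y - d.c q.2) := by
      rw [smul_sub, smul_smul, mul_inv_cancel₀ hpos.ne', one_smul]
    rw [this, map_smul_eq_mul, Real.norm_eq_abs, abs_of_pos hpos]
    constructor
    · intro h; nlinarith
    · intro h; nlinarith
  refine ⟨insert (Metric.closedBall 0 1) (Set.range ball), ?_, ?_, fun y => ?_⟩
  · rintro B (rfl | ⟨q, rfl⟩)
    · exact ⟨0, 1, one_pos, rfl⟩
    · exact ⟨_, _, by positivity, rfl⟩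
  · refine Set.eq_univ_of_forall fun y => ?_
    rcases eq_or_ne y 0 with rfl | hy
    · exact ⟨_, Set.mem_insert _ _, Metric.mem_closedBall_self zero_le_one⟩
    · have hy' : E y ≠ 0 := fun h => hy (E.map_eq_zero_iff.1 h)
      obtain ⟨n, p, h⟩ := d.cover hy'
      exact ⟨ball (n, p), Set.mem_insert_of_mem _ ⟨_, rfl⟩, (hball (n, p) y).2 h⟩
  · refine (((d.finite_all (E y)).image ball).insert (Metric.closedBall 0 1)).subset ?_
    rintro B ⟨rfl | ⟨q, rfl⟩, hB⟩
    · exact Set.mem_insert _ _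
    · exact Set.mem_insert_of_mem _ ⟨q, (hball q y).1 hB, rfl⟩

end NewNorm

section Exists

variable {H : Type*} [NormedAddCommGroup H] [InnerProductSpace ℝ H]

/-- Rational combinations of basis vectors. -/
noncomputable def ratComb {Γ : Type*} (b : Γ → H) (l : List (Γ × ℚ)) : H :=
  (l.map fun a => (a.2 : ℝ) • b a.1).sum

lemma dense_ratComb {Γ : Type*} (b : HilbertBasis Γ ℝ H) (x : H) :
    x ∈ closure (Set.range (ratComb b)) := by
  have hadd : ∀ u ∈ closure (Set.range (ratComb b)), ∀ v ∈ closure (Set.range (ratComb b)),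
      u + v ∈ closure (Set.range (ratComb b)) := by
    intro u hu v hv
    refine map_mem_closure₂ continuous_add hu hv ?_
    rintro _ ⟨l₁, rfl⟩ _ ⟨l₂, rfl⟩
    exact ⟨l₁ ++ l₂, by simp [ratComb]⟩
  have hspan : ∀ v ∈ Submodule.span ℝ (Set.range b), ∀ r : ℝ,
      r • v ∈ closure (Set.range (ratComb b)) := by
    intro v hv
    induction hv using Submodule.span_induction with
    | mem v hv =>
      obtain ⟨γ, rfl⟩ := hv
      intro r
      have hr : r ∈ closure (Set.range ((↑) : ℚ → ℝ)) := Rat.denseRange_cast r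
      refine map_mem_closure (f := fun s : ℝ => s • b γ) (by fun_prop) hr ?_
      rintro _ ⟨a, rfl⟩
      exact ⟨[(γ, a)], by simp [ratComb]⟩
    | zero =>
      intro r
      exact subset_closure ⟨[], by simp [ratComb]⟩
    | add u v _ _ hu hv =>
      intro r
      rw [smul_add]
      exact hadd _ (hu r) _ (hv r)
    | smul a v _ hv =>
      intro r
      rw [smul_smul]
      exact hv _
  have hx : x ∈ (Submodule.span ℝ (Set.range b)).topologicalClosure := by
    rw [b.dense_span]; trivial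
  have : closure (Submodule.span ℝ (Set.range b) : Set H) ⊆ closure (Set.range (ratComb b)) :=
    closure_minimal (fun v hv => by simpa using hspan v hv 1) isClosed_closure
  exact this hx

open Cardinal in
lemma exists_embedding (Γ : Type u) [Infinite Γ] :
    Nonempty ((List (Γ × ℚ) × ℕ) ⊕ ((List (Γ × ℚ) × ℕ) × Lv) ↪ Γ) := by
  have hΓ : ℵ₀ ≤ #Γ := aleph0_le_mk Γ
  have h1 : #(Γ × ℚ) = #Γ := by
    rw [mk_prod, lift_uzero, mk_eq_aleph0 ℚ, lift_aleph0, mul_aleph0_eq hΓ]
  have h2 : #(List (Γ × ℚ) × ℕ) = #Γ := by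
    rw [mk_prod, lift_uzero, mk_list_eq_mk, h1, mk_nat, lift_aleph0, mul_aleph0_eq hΓ]
  have h3 : #((List (Γ × ℚ) × ℕ) × Lv) ≤ #Γ := by
    rw [mk_prod, lift_uzero, h2]
    have : lift.{u} #Lv ≤ ℵ₀ := by
      rw [lift_le_aleph0]; exact mk_le_aleph0
    calc #Γ * lift.{u} #Lv ≤ #Γ * ℵ₀ := mul_le_mul_right this _
      _ = #Γ := mul_aleph0_eq hΓ
  rw [← Cardinal.le_def, mk_sum, lift_id, lift_id, h2]
  exact add_le_of_le hΓ le_rfl h3

lemma exists_data {Γ : Type u} [Infinite Γ] (b : HilbertBasis Γ ℝ H) :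
    Nonempty (Data H (List (Γ × ℚ) × ℕ)) := by
  classical
  obtain ⟨ι⟩ := exists_embedding Γ
  refine ⟨{ y := fun j => if ‖ratComb b j.1‖ ≤ 1 then ratComb b j.1 else 0
            w := fun j => b (ι (Sum.inl j))
            e := fun p => b (ι (Sum.inr p))
            hy := fun j => ?_
            on := ?_
            dense := fun x hx ε hε => ?_ }⟩
  · split_ifs with h
    · exact h
    · simp
  · convert b.orthonormal.comp ι ι.injective using 1
    ext a
    rcases a with j | p <;> rfl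
  · set δ := min (ε / 2) 1 with hδ
    have hδpos : 0 < δ := lt_min (by linarith) one_pos
    have hδ1 : δ ≤ 1 := min_le_right _ _
    have hδ2 : δ ≤ ε / 2 := min_le_left _ _
    obtain ⟨_, ⟨l, rfl⟩, hl⟩ :=
      Metric.mem_closure_iff.1 (dense_ratComb b ((1 - δ) • x)) δ hδpos
    rw [dist_comm, dist_eq_norm] at hl
    have hn : ‖(1 - δ) • x‖ = 1 - δ := by
      rw [norm_smul, hx, Real.norm_eq_abs, abs_of_nonneg (by linarith), mul_one]
    have h1 : ‖ratComb b l‖ ≤ 1 := by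
      have := norm_add_le (ratComb b l - (1 - δ) • x) ((1 - δ) • x)
      rw [sub_add_cancel, hn] at this
      linarith
    have h2 : ‖ratComb b l - x‖ < ε := by
      have h3 : ratComb b l - x = (ratComb b l - (1 - δ) • x) + (-δ) • x := by
        rw [sub_smul, one_smul, neg_smul]; abel
      have h4 : ‖(-δ) • x‖ = δ := by
        rw [norm_smul, hx, Real.norm_eq_abs, abs_neg, abs_of_pos hδpos, mul_one]
      have := norm_add_le (ratComb b l - (1 - δ) • x) ((-δ) • x)
      rw [← h3, h4] at this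
      linarith
    refine Set.infinite_of_injective_forall_mem (f := fun n : ℕ => (l, n))
      (fun a a' h => by simpa using h) fun n => ?_
    simp only [Set.mem_ofPred_eq, if_pos h1]
    exact h2

end Exists

/-- Main theorem. -/
theorem main (Γ : Type u) [Infinite Γ] :
    ∃ (X : Type u) (_ : NormedAddCommGroup X) (_ : NormedSpace ℝ X),
      CompleteSpace X ∧ ¬ FiniteDimensional ℝ X ∧
      Function.Surjective (NormedSpace.inclusionInDoubleDual ℝ X) ∧
      Nonempty (X ≃L[ℝ] lp (fun _ : Γ => ℝ) 2) ∧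
      ∃ 𝓑 : Set (Set X),
        (∀ B ∈ 𝓑, ∃ (x : X) (r : ℝ), 0 < r ∧ B = Metric.closedBall x r) ∧
        ⋃₀ 𝓑 = Set.univ ∧ ∀ y : X, {B ∈ 𝓑 | y ∈ B}.Finite := by
  let b : HilbertBasis Γ ℝ (lp (fun _ : Γ => ℝ) 2) := default
  obtain ⟨d⟩ := exists_data b
  obtain ⟨_, _⟩ := exists_wellFoundedLT (α := List (Γ × ℚ) × ℕ)
  let E := Renorm.equiv d.eqNorm
  refine ⟨Renorm d.eqNorm, inferInstance, inferInstance, ?_, ?_, reflexive_of_equiv E, ⟨E⟩,
    d.covering⟩
  · exact (completeSpace_congr (e := E.toLinearEquiv.toEquiv) E.isUniformEmbedding).2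
      inferInstance
  · intro h
    have : FiniteDimensional ℝ (lp (fun _ : Γ => ℝ) 2) := E.toLinearEquiv.finiteDimensional
    have := b.orthonormal.linearIndependent.finite
    exact not_finite Γ

end Pool.Agent.P.MP_73700b_an.Cover
end
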