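import Mathlib

-- part Pool.Agent.P.MP_73700b_an.RegA
section

/-!
Weak limits along an ultrafilter and an adaptive enumeration of rational combinations.
-/

namespace Pool.Agent.P.MP_73700b_an.Reg

open Filter Topology

section Weak

variable {X : Type*} [NormedAddCommGroup X] [NormedSpace ℝ X]

lemma exists_lim_of_compact {Y : Type*} [TopologicalSpace Y] (U : Ultrafilter ℕ) (u : ℕ → Y)
    {K : Set Y} (hK : IsCompact K) (hu : ∀ᶠ n in (U : Filter ℕ), u n ∈ K) :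
    ∃ c ∈ K, Tendsto u U (𝓝 c) := by
  obtain ⟨c, hc, h⟩ := hK.ultrafilter_le_nhds' (U.map u) hu
  exact ⟨c, hc, h⟩

lemma exists_wstar_lim (U : Ultrafilter ℕ) (q : ℕ → X →L[ℝ] ℝ) (M : ℝ) (hq : ∀ n, ‖q n‖ ≤ M) :
    ∃ p : X →L[ℝ] ℝ, ∀ v, Tendsto (fun n => q n v) U (𝓝 (p v)) := by
  have h1 : ∀ v : X, ∃ c ∈ Set.Icc (-(M * ‖v‖)) (M * ‖v‖), Tendsto (fun n => q n v) U (𝓝 c) := by
    intro v
    refine exists_lim_of_compact U _ isCompact_Icc (Eventually.of_forall fun n => ?_)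
    have h := (q n).le_opNorm v
    have h2 : ‖q n‖ * ‖v‖ ≤ M * ‖v‖ := mul_le_mul_of_nonneg_right (hq n) (norm_nonneg v)
    rw [Real.norm_eq_abs] at h
    exact abs_le.1 (h.trans h2)
  choose c hc hlim using h1
  let p : X →ₗ[ℝ] ℝ :=
    { toFun := c
      map_add' := fun v w => by
        refine tendsto_nhds_unique (hlim (v + w)) ?_
        simpa only [map_add] using (hlim v).add (hlim w)
      map_smul' := fun t v => by
        refine tendsto_nhds_unique (hlim (t • v)) ?_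
        simpa only [map_smul, smul_eq_mul, RingHom.id_apply] using (hlim v).const_mul t }
  refine ⟨p.mkContinuous M fun v => ?_, hlim⟩
  rw [Real.norm_eq_abs]
  exact abs_le.2 (hc v)

lemma exists_weak_lim (hrefl : Function.Surjective (NormedSpace.inclusionInDoubleDual ℝ X))
    (U : Ultrafilter ℕ) (a : ℕ → X) (M : ℝ) (ha : ∀ n, ‖a n‖ ≤ M) :
    ∃ b : X, ∀ f : X →L[ℝ] ℝ, Tendsto (fun n => f (a n)) U (𝓝 (f b)) := by
  obtain ⟨p, hp⟩ := exists_wstar_lim U (fun n => NormedSpace.inclusionInDoubleDual ℝ X (a n)) M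
    (fun n => (NormedSpace.double_dual_bound ℝ X (a n)).trans (ha n))
  obtain ⟨b, rfl⟩ := hrefl p
  exact ⟨b, fun f => hp f⟩

lemma mem_of_weak_lim (U : Ultrafilter ℕ) (a : ℕ → X) (b : X)
    (h : ∀ f : X →L[ℝ] ℝ, Tendsto (fun n => f (a n)) U (𝓝 (f b))) {K : Set X}
    (hc : Convex ℝ K) (hK : IsClosed K) (ha : ∀ᶠ n in (U : Filter ℕ), a n ∈ K) : b ∈ K := by
  by_contra hb
  obtain ⟨f, u, h1, h2⟩ := geometric_hahn_banach_point_closed hc hK hb
  have : u ≤ f b := ge_of_tendsto (h f) (ha.mono fun n hn => (h2 _ hn).le)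
  linarith

lemma weak_of_wstar (hrefl : Function.Surjective (NormedSpace.inclusionInDoubleDual ℝ X))
    (U : Ultrafilter ℕ) (q : ℕ → X →L[ℝ] ℝ) (p : X →L[ℝ] ℝ)
    (h : ∀ v, Tendsto (fun n => q n v) U (𝓝 (p v))) (F : (X →L[ℝ] ℝ) →L[ℝ] ℝ) :
    Tendsto (fun n => F (q n)) U (𝓝 (F p)) := by
  obtain ⟨v, rfl⟩ := hrefl F
  exact h v

/-- An affine function that is nonnegative on a ball. -/
lemma aff_bound (f : X →L[ℝ] ℝ) {c r : ℝ} (hr : 0 < r)
    (h : ∀ v, ‖v‖ ≤ r → 0 ≤ c + f v) : r * ‖f‖ ≤ c := by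
  have h0 : 0 ≤ c := by simpa using h 0 (by simpa using hr.le)
  have : ‖f‖ ≤ c / r := by
    refine ContinuousLinearMap.opNorm_le_of_unit_norm (div_nonneg h0 hr.le) fun x hx => ?_
    have h1 := h (r • x) (by rw [norm_smul, hx, Real.norm_eq_abs, abs_of_pos hr]; simp)
    have h2 := h (-(r • x)) (by rw [norm_neg, norm_smul, hx, Real.norm_eq_abs, abs_of_pos hr]; simp)
    rw [map_neg, map_smul, smul_eq_mul] at h2
    rw [map_smul, smul_eq_mul] at h1
    rw [Real.norm_eq_abs, le_div_iff₀ hr]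
    rcases le_total 0 (f x) with h3 | h3
    · rw [abs_of_nonneg h3]; linarith
    · rw [abs_of_nonpos h3]; linarith
  rwa [le_div_iff₀ hr, mul_comm] at this

end Weak

section Comb

variable {Y : Type*} [NormedAddCommGroup Y] [NormedSpace ℝ Y]

/-- A rational combination of the terms of a sequence. -/
noncomputable def comb (y : ℕ → Y) (l : List (ℕ × ℚ)) : Y :=
  (l.map fun p => (p.2 : ℝ) • y p.1).sum

lemma comb_nil (y : ℕ → Y) : comb y [] = 0 := rfl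

lemma comb_cons (y : ℕ → Y) (p : ℕ × ℚ) (l : List (ℕ × ℚ)) :
    comb y (p :: l) = (p.2 : ℝ) • y p.1 + comb y l := by
  simp [comb]

lemma comb_append (y : ℕ → Y) (l l' : List (ℕ × ℚ)) :
    comb y (l ++ l') = comb y l + comb y l' := by
  simp [comb]

lemma comb_congr (y y' : ℕ → Y) (l : List (ℕ × ℚ)) (h : ∀ p ∈ l, y p.1 = y' p.1) :
    comb y l = comb y' l := by
  induction l with
  | nil => rfl
  | cons p l ih =>
    rw [comb_cons, comb_cons, h p (by simp), ih fun p hp => h p (by simp [hp])]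

lemma map_comb {Z : Type*} [NormedAddCommGroup Z] [NormedSpace ℝ Z] (f : Y →L[ℝ] Z)
    (y : ℕ → Y) (l : List (ℕ × ℚ)) : f (comb y l) = comb (fun n => f (y n)) l := by
  induction l with
  | nil => simp [comb_nil]
  | cons p l ih => rw [comb_cons, comb_cons, map_add, map_smul, ih]

lemma comb_smul (y : ℕ → Y) (l : List (ℕ × ℚ)) (c : ℚ) :
    comb y (l.map fun p => (p.1, c * p.2)) = (c : ℝ) • comb y l := by
  induction l with
  | nil => simp [comb_nil]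
  | cons p l ih =>
    rw [List.map_cons, comb_cons, comb_cons, ih, smul_add, smul_smul]
    push_cast
    rfl

lemma span_le_closure (y : ℕ → Y) (p : Y) (hp : p ∈ Submodule.span ℝ (Set.range y)) :
    p ∈ closure (Set.range (comb y)) := by
  induction hp using Submodule.span_induction with
  | mem x hx =>
    obtain ⟨n, rfl⟩ := hx
    exact subset_closure ⟨[(n, 1)], by simp [comb]⟩
  | zero => exact subset_closure ⟨[], rfl⟩
  | add a b _ _ ha hb =>
    refine map_mem_closure₂ continuous_add ha hb ?_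
    rintro _ ⟨l, rfl⟩ _ ⟨l', rfl⟩
    exact ⟨l ++ l', comb_append y l l'⟩
  | smul t a _ ha =>
    have ht : t ∈ closure (Set.range ((↑) : ℚ → ℝ)) := Rat.denseRange_cast t
    refine map_mem_closure₂ (f := fun (t : ℝ) (a : Y) => t • a) continuous_smul ht ha ?_
    rintro _ ⟨c, rfl⟩ _ ⟨l, rfl⟩
    exact ⟨_, comb_smul y l c⟩

lemma approx_of_weak_lim (U : Ultrafilter ℕ) (y : ℕ → Y) (p : Y)
    (h : ∀ f : Y →L[ℝ] ℝ, Tendsto (fun n => f (y n)) U (𝓝 (f p))) {ε : ℝ} (hε : 0 < ε) :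
    ∃ l, ‖p - comb y l‖ < ε := by
  have h1 : p ∈ closure (Submodule.span ℝ (Set.range y) : Set Y) :=
    mem_of_weak_lim U y p h (Submodule.convex _).closure isClosed_closure
      (Eventually.of_forall fun n => subset_closure (Submodule.subset_span ⟨n, rfl⟩))
  have h2 : p ∈ closure (Set.range (comb y)) :=
    closure_minimal (fun x hx => span_le_closure y x hx) isClosed_closure h1
  obtain ⟨_, ⟨l, rfl⟩, hl⟩ := Metric.mem_closure_iff.1 h2 ε hε
  exact ⟨l, by rwa [dist_eq_norm] at hl⟩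

lemma adaptive {σ : Type*} (s0 : σ) (R : ℕ → σ → Y → σ → Y → Prop)
    (h : ∀ n s d, ∃ s' y, R n s d s' y) :
    ∃ (s : ℕ → σ) (d y : ℕ → Y), (∀ n, R n (s n) (d n) (s (n + 1)) (y n)) ∧
      ∀ l N, ∃ n, N ≤ n ∧ d n = comb y l := by
  classical
  choose nx out hR using h
  obtain ⟨e, he⟩ := exists_surjective_nat (List (ℕ × ℚ))
  let E : ℕ → List (ℕ × ℚ) := fun n => e (Nat.unpair n).1
  let H : ℕ → σ × (ℕ → Y) := fun n => Nat.rec (s0, fun _ => 0)
    (fun n p => (nx n p.1 (comb p.2 (E n)), Function.update p.2 n (out n p.1 (comb p.2 (E n))))) n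
  have hH : ∀ n, H (n + 1) = (nx n (H n).1 (comb (H n).2 (E n)),
      Function.update (H n).2 n (out n (H n).1 (comb (H n).2 (E n)))) := fun n => rfl
  let y : ℕ → Y := fun n => out n (H n).1 (comb (H n).2 (E n))
  have hy : ∀ m i, i < m → (H m).2 i = y i := by
    intro m
    induction m with
    | zero => intro i hi; omega
    | succ m ih =>
      intro i hi
      rw [hH]
      by_cases him : i = m
      · subst him; simp [y]
      · simp only [Function.update_of_ne him]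
        exact ih i (by omega)
  refine ⟨fun n => (H n).1, fun n => comb (H n).2 (E n), y, fun n => hR n _ _, fun l N => ?_⟩
  obtain ⟨k, rfl⟩ := he l
  obtain ⟨B, hB⟩ : ∃ B, ∀ p ∈ e k, p.1 < B := by
    generalize e k = l
    induction l with
    | nil => exact ⟨0, by simp⟩
    | cons p l ih =>
      obtain ⟨B, hB⟩ := ih
      refine ⟨max B (p.1 + 1), fun p' hp' => ?_⟩
      rcases List.mem_cons.1 hp' with rfl | hp'
      · omega
      · have := hB p' hp'; omega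
  refine ⟨Nat.pair k (max N B), (le_max_left N B).trans (Nat.right_le_pair _ _), ?_⟩
  have hE : E (Nat.pair k (max N B)) = e k := by simp [E]
  simp only [hE]
  refine comb_congr _ _ _ fun p hp => hy _ _ ?_
  exact (hB p hp).trans_le ((le_max_right N B).trans (Nat.right_le_pair _ _))

end Comb

end Pool.Agent.P.MP_73700b_an.Reg
end

-- part Pool.Agent.P.MP_73700b_an.RegB
section

/-!
A game on the boundary of a bounded convex body given by a bounded family of functionals.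
-/

namespace Pool.Agent.P.MP_73700b_an.Reg

open Filter Topology

variable {L : Type*} [NormedAddCommGroup L] [NormedSpace ℝ L] {J : Type*}

/-- Boundary points of the body where all functionals are at most one. -/
def Bd (q : J → L →L[ℝ] ℝ) (x : L) : Prop :=
  (∀ j, q j x ≤ 1) ∧ ∀ ε : ℝ, 0 < ε → ∃ j, 1 - ε < q j x

/-- A window: a boundary point and a positive radius. -/
def Ok (q : J → L →L[ℝ] ℝ) (w : L × ℝ) : Prop := Bd q w.1 ∧ 0 < w.2

/-- A window well inside another one. -/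
def Sub (w' w : L × ℝ) : Prop := ‖w'.1 - w.1‖ + 2 * w'.2 ≤ w.2

/-- The functional reaches the value one in the window. -/
def Sees (q : J → L →L[ℝ] ℝ) (w : L × ℝ) (j : J) : Prop := ∃ x, ‖x - w.1‖ ≤ w.2 ∧ 1 ≤ q j x

lemma Sub.trans {w'' w' w : L × ℝ} (h1 : Sub w'' w') (h2 : Sub w' w) (h : 0 < w'.2) :
    Sub w'' w := by
  unfold Sub at *
  have := norm_sub_le_norm_sub_add_norm_sub w''.1 w'.1 w.1
  linarith

lemma Sub.mem {w' w : L × ℝ} (h1 : Sub w' w) (h : 0 < w'.2) {x : L} (hx : ‖x - w'.1‖ ≤ w'.2) :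
    ‖x - w.1‖ ≤ w.2 := by
  unfold Sub at *
  have := norm_sub_le_norm_sub_add_norm_sub x w'.1 w.1
  linarith

lemma Sees.mono {q : J → L →L[ℝ] ℝ} {w' w : L × ℝ} {j : J} (hs : Sees q w' j) (h1 : Sub w' w)
    (h : 0 < w'.2) : Sees q w j := by
  obtain ⟨x, hx, hq⟩ := hs
  exact ⟨x, h1.mem h hx, hq⟩

lemma sub_self_of_le (x : L) {t T : ℝ} (h : 2 * t ≤ T) : Sub (x, t) (x, T) := by
  simpa [Sub] using h

/-- The data of the game. -/
structure Body (q : J → L →L[ℝ] ℝ) (M K : ℝ) : Prop where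
  M_pos : 0 < M
  K_pos : 0 < K
  hM : ∀ j, ‖q j‖ ≤ M
  hK : ∀ x, (∀ j, q j x ≤ 1) → ‖x‖ ≤ K

namespace Body

variable {q : J → L →L[ℝ] ℝ} {M K : ℝ} (B : Body q M K)
include B

lemma abs_le (j : J) (x : L) : |q j x| ≤ M * ‖x‖ := by
  have h := (q j).le_opNorm x
  rw [Real.norm_eq_abs] at h
  exact h.trans (mul_le_mul_of_nonneg_right (B.hM j) (norm_nonneg x))

lemma le_of_norm (j : J) {x : L} {t : ℝ} (h : ‖x‖ ≤ t) : q j x ≤ M * t ∧ -(M * t) ≤ q j x := by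
  have h1 := _root_.abs_le.1 ((B.abs_le j x).trans (mul_le_mul_of_nonneg_left h B.M_pos.le))
  exact ⟨h1.2, h1.1⟩

lemma gauge (x : L) (hx : ∃ j, 0 < q j x) :
    ∃ μ : ℝ, 0 < μ ∧ (∀ j, q j x ≤ μ) ∧ (∀ ε : ℝ, 0 < ε → ∃ j, μ - ε < q j x) ∧
      Bd q (μ⁻¹ • x) := by
  obtain ⟨j0, hj0⟩ := hx
  have : Nonempty J := ⟨j0⟩
  have hb : BddAbove (Set.range fun j => q j x) :=
    ⟨M * ‖x‖, by rintro _ ⟨j, rfl⟩; exact (B.le_of_norm j le_rfl).1⟩
  have h1 : ∀ j, q j x ≤ ⨆ j, q j x := fun j => le_ciSup hb j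
  have h2 : ∀ ε : ℝ, 0 < ε → ∃ j, (⨆ j, q j x) - ε < q j x := fun ε hε =>
    exists_lt_of_lt_ciSup (by linarith)
  have hμ : 0 < ⨆ j, q j x := hj0.trans_le (h1 j0)
  generalize (⨆ j, q j x) = μ at h1 h2 hμ
  refine ⟨μ, hμ, h1, h2, fun j => ?_, fun ε hε => ?_⟩
  · rw [map_smul, smul_eq_mul, inv_mul_le_iff₀ hμ, mul_one]; exact h1 j
  · obtain ⟨j, hj⟩ := h2 (μ * ε) (by positivity)
    refine ⟨j, ?_⟩
    rw [map_smul, smul_eq_mul, lt_inv_mul_iff₀ hμ]
    linarith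

lemma exists_bd (v : L) (hv : v ≠ 0) : ∃ x, Bd q x := by
  have hv' : 0 < ‖v‖ := norm_pos_iff.2 hv
  have hK := B.K_pos
  have : ∃ j, 0 < q j (((K + 1) / ‖v‖) • v) := by
    by_contra h
    push Not at h
    have h2 := B.hK _ fun j => (h j).trans zero_le_one
    rw [norm_smul, Real.norm_eq_abs, abs_of_pos (by positivity), div_mul_cancel₀ _ hv'.ne'] at h2
    linarith
  obtain ⟨μ, -, -, -, h⟩ := B.gauge _ this
  exact ⟨_, h⟩

lemma radial {x : L} (hx : Bd q x) (x2 : L) {t : ℝ} (ht : ‖x2 - x‖ ≤ t) (hMt : M * t ≤ 1 / 2) :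
    ∃ μ : ℝ, 0 < μ ∧ μ ≤ 2 ∧ (∀ j, q j x2 ≤ μ) ∧ Bd q (μ⁻¹ • x2) ∧
      ‖μ⁻¹ • x2 - x‖ ≤ (2 + 2 * M * K) * t := by
  have ht0 : 0 ≤ t := (norm_nonneg _).trans ht
  have hd : ∀ j, q j x2 - q j x ≤ M * t ∧ -(M * t) ≤ q j x2 - q j x := fun j => by
    rw [← map_sub]; exact B.le_of_norm j ht
  obtain ⟨j0, hj0⟩ := hx.2 (1 / 4) (by norm_num)
  obtain ⟨μ, hμ, h1, h2, h3⟩ := B.gauge x2 ⟨j0, by linarith [(hd j0).2]⟩
  have hup : μ ≤ 1 + M * t := by
    refine le_of_forall_pos_le_add fun ε hε => ?_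
    obtain ⟨j, hj⟩ := h2 ε hε
    linarith [(hd j).1, hx.1 j]
  have hlo : 1 - M * t ≤ μ := by
    refine le_of_forall_pos_le_add fun ε hε => ?_
    obtain ⟨j, hj⟩ := hx.2 ε hε
    linarith [(hd j).2, h1 j]
  refine ⟨μ, hμ, by linarith, h1, h3, ?_⟩
  have hinv : μ⁻¹ ≤ 2 := by
    rw [inv_le_comm₀ hμ (by norm_num)]; linarith
  have hinv0 : 0 < μ⁻¹ := inv_pos.2 hμ
  have e : μ⁻¹ • x2 - x = μ⁻¹ • ((x2 - x) + (1 - μ) • x) := by
    rw [smul_add, smul_sub, smul_smul, mul_sub, inv_mul_cancel₀ hμ.ne', mul_one, sub_smul,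
      one_smul]
    abel
  have hxK := B.hK x hx.1
  have habs : |1 - μ| ≤ M * t := _root_.abs_le.2 ⟨by linarith, by linarith⟩
  have h4 : ‖(x2 - x) + (1 - μ) • x‖ ≤ t + M * t * K := by
    refine (norm_add_le _ _).trans (add_le_add ht ?_)
    rw [norm_smul, Real.norm_eq_abs]
    exact mul_le_mul habs hxK (norm_nonneg _) (mul_nonneg B.M_pos.le ht0)
  rw [e, norm_smul, Real.norm_eq_abs, abs_of_pos hinv0]
  calc μ⁻¹ * ‖(x2 - x) + (1 - μ) • x‖ ≤ 2 * (t + M * t * K) :=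
        mul_le_mul hinv h4 (norm_nonneg _) (by norm_num)
    _ = (2 + 2 * M * K) * t := by ring

/-- Every window contains a point outside the body. -/
lemma exists_out {w : L × ℝ} (hw : Ok q w) : ∃ x j, ‖x - w.1‖ ≤ w.2 ∧ 1 < q j x := by
  obtain ⟨x, t⟩ := w
  obtain ⟨hx, ht⟩ := hw
  simp only at hx ht ⊢
  have hK := B.K_pos
  have hθ : 0 < t / K := by positivity
  obtain ⟨j, hj⟩ := hx.2 (t / K / (1 + t / K)) (by positivity)
  refine ⟨(1 + t / K) • x, j, ?_, ?_⟩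
  · have : (1 + t / K) • x - x = (t / K) • x := by rw [add_smul, one_smul]; abel
    rw [this, norm_smul, Real.norm_eq_abs, abs_of_pos hθ]
    calc t / K * ‖x‖ ≤ t / K * K := mul_le_mul_of_nonneg_left (B.hK x hx.1) hθ.le
      _ = t := by field_simp
  · rw [map_smul, smul_eq_mul]
    generalize t / K = θ at hθ hj
    have h1 : 0 < 1 + θ := by linarith
    have h2 : (1 + θ) * (1 - θ / (1 + θ)) = 1 := by field_simp; ring
    calc (1 : ℝ) = (1 + θ) * (1 - θ / (1 + θ)) := h2.symm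
      _ < (1 + θ) * q j x := mul_lt_mul_of_pos_left hj h1

lemma exists_sees {w : L × ℝ} (hw : Ok q w) : ∃ j, Sees q w j := by
  obtain ⟨x, j, h1, h2⟩ := B.exists_out hw
  exact ⟨j, x, h1, h2.le⟩

/-- The dual step: in a suitable subwindow all visible functionals have nearly the same distance
from `d`, witnessed by one vector. -/
lemma stepA {w : L × ℝ} (hw : Ok q w) (d : L →L[ℝ] ℝ) {η : ℝ} (hη : 0 < η) :
    ∃ w', Ok q w' ∧ Sub w' w ∧ ∃ (v : L) (s : ℝ), ‖v‖ ≤ 1 ∧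
      ∀ j, Sees q w' j → s - η ≤ (q j - d) v ∧ ‖q j - d‖ ≤ s + η := by
  have hM := B.M_pos
  have hK := B.K_pos
  let A : Set ℝ := {s | ∃ w', Ok q w' ∧ Sub w' w ∧ ∀ j, Sees q w' j → ‖q j - d‖ ≤ s}
  have hne : A.Nonempty := ⟨M + ‖d‖, (w.1, w.2 / 2), ⟨hw.1, half_pos hw.2⟩,
    sub_self_of_le _ (by linarith), fun j _ => (norm_sub_le _ _).trans (by linarith [B.hM j])⟩
  have hbd : BddBelow A := ⟨0, by
    rintro s ⟨w', h1, -, h3⟩
    obtain ⟨j, hj⟩ := B.exists_sees h1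
    exact (norm_nonneg _).trans (h3 j hj)⟩
  obtain ⟨s', ⟨⟨x0, T⟩, hw1, hsub1, hs'⟩, hlt⟩ :=
    exists_lt_of_csInf_lt hne (show sInf A < sInf A + η / 2 by linarith)
  have hlow : ∀ w', Ok q w' → Sub w' w → ∃ j, Sees q w' j ∧ sInf A - η / 2 < ‖q j - d‖ := by
    intro w' h1 h2
    by_contra h
    push Not at h
    have : sInf A ≤ sInf A - η / 2 := csInf_le hbd ⟨w', h1, h2, h⟩
    linarith
  generalize sInf A = s at hlt hlow
  have hT : 0 < T := hw1.2
  have hx0 : Bd q x0 := hw1.1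
  have hc : 0 < 2 + 2 * M * K := by positivity
  obtain ⟨t, ht, ht1, ht2⟩ : ∃ t : ℝ, 0 < t ∧ M * t ≤ 1 / 2 ∧ (2 + 2 * M * K) * t ≤ T / 2 := by
    refine ⟨min (1 / 2 / M) (T / 2 / (2 + 2 * M * K)), by positivity, ?_, ?_⟩
    · rw [mul_comm, ← le_div_iff₀ hM]; exact min_le_left _ _
    · rw [mul_comm, ← le_div_iff₀ hc]; exact min_le_right _ _
  obtain ⟨τ, hτ, hτ1, hτ2⟩ : ∃ τ : ℝ, 0 < τ ∧ τ ≤ T / 4 ∧ 3 * M * τ ≤ t * (η / 2) := by
    refine ⟨min (T / 4) (t * (η / 2) / (3 * M)), by positivity, min_le_left _ _, ?_⟩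
    rw [mul_comm, ← le_div_iff₀ (by positivity)]; exact min_le_right _ _
  obtain ⟨j1, ⟨x1, hx1, hq1⟩, hj1⟩ := hlow (x0, τ) ⟨hx0, hτ⟩
    ((sub_self_of_le x0 (by linarith)).trans hsub1 hT)
  obtain ⟨v, hv, hv2⟩ : ∃ v : L, ‖v‖ ≤ 1 ∧ s - η / 2 < (q j1 - d) v := by
    obtain ⟨v, hv, hv2⟩ := (q j1 - d).exists_lt_apply_of_lt_opNorm hj1
    rw [Real.norm_eq_abs, lt_abs] at hv2
    rcases hv2 with h | h
    · exact ⟨v, hv.le, h⟩
    · exact ⟨-v, by simpa using hv.le, by rwa [map_neg]⟩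
  have hx2 : ‖(x0 + t • v) - x0‖ ≤ t := by
    rw [add_sub_cancel_left, norm_smul, Real.norm_eq_abs, abs_of_pos ht]
    nlinarith
  obtain ⟨μ, hμ, hμ2, h1, hbd2, hnear⟩ := B.radial hx0 (x0 + t • v) hx2 ht1
  have hsub2 : Sub (μ⁻¹ • (x0 + t • v), τ) (x0, T) := by
    unfold Sub; simp only; linarith
  refine ⟨(μ⁻¹ • (x0 + t • v), τ), ⟨hbd2, hτ⟩, hsub2.trans hsub1 hT, v, s, hv, fun j hj => ⟨?_, ?_⟩⟩
  · obtain ⟨x3, hx3, hq3⟩ := hj
    have a1 := (B.le_of_norm j hx3).1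
    have a2 := (B.le_of_norm j1 hx1).1
    simp only [map_sub] at a1 a2
    have a3 : q j (x0 + t • v) = μ * q j (μ⁻¹ • (x0 + t • v)) := by
      rw [map_smul (q j) μ⁻¹, smul_eq_mul, ← mul_assoc, mul_inv_cancel₀ hμ.ne', one_mul]
    have a4 : μ * (1 - M * τ) ≤ q j (x0 + t • v) := by
      rw [a3]; exact mul_le_mul_of_nonneg_left (by linarith) hμ.le
    have a5 := h1 j1
    have a6 := hx0.1 j
    rw [map_add, map_smul, smul_eq_mul] at a4 a5
    have a7 : μ * (M * τ) ≤ 2 * (M * τ) := mul_le_mul_of_nonneg_right hμ2 (by positivity)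
    have a8 : t * (-(η / 2)) ≤ t * (q j v - q j1 v) := by nlinarith
    have a9 := le_of_mul_le_mul_left a8 ht
    simp only [sub_apply] at hv2 ⊢
    linarith
  · have := hs' j (hj.mono hsub2 hτ)
    linarith

/-- Avoiding one functional. -/
lemma stepB {w : L × ℝ} (hw : Ok q w) (j : J)
    (h : ∀ w', Ok q w' → ∃ x', Bd q x' ∧ ‖x' - w'.1‖ ≤ w'.2 ∧ q j x' ≠ 1) :
    ∃ w', Ok q w' ∧ Sub w' w ∧ ¬ Sees q w' j := by
  have hM := B.M_pos
  obtain ⟨x', h1, h2, h3⟩ := h (w.1, w.2 / 2) ⟨hw.1, half_pos hw.2⟩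
  have h4 : 0 < 1 - q j x' := sub_pos.2 (lt_of_le_of_ne (h1.1 j) h3)
  have hT := hw.2
  obtain ⟨τ, hτ, hτ1, hτ2⟩ : ∃ τ : ℝ, 0 < τ ∧ τ ≤ w.2 / 4 ∧ 2 * M * τ ≤ 1 - q j x' := by
    refine ⟨min (w.2 / 4) ((1 - q j x') / (2 * M)), by positivity, min_le_left _ _, ?_⟩
    rw [mul_comm, ← le_div_iff₀ (by positivity)]; exact min_le_right _ _
  refine ⟨(x', τ), ⟨h1, hτ⟩, ?_, ?_⟩
  · unfold Sub; simp only at h2 ⊢; linarith
  · rintro ⟨x, hx, hq⟩
    have a1 := (B.le_of_norm j hx).1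
    simp only [map_sub] at a1
    linarith

/-- A flat piece of the boundary. -/
lemma flat {w : L × ℝ} (hw : Ok q w) (j : J)
    (h : ∀ x', Bd q x' → ‖x' - w.1‖ ≤ w.2 → q j x' = 1) :
    q j w.1 = 1 ∧ ∃ ρ : ℝ, 0 < ρ ∧ ∀ v, q j v = 0 → ‖v‖ ≤ ρ → ∀ j', q j' (w.1 + v) ≤ 1 := by
  have hM := B.M_pos
  have hK := B.K_pos
  have hT := hw.2
  have h0 : q j w.1 = 1 := h _ hw.1 (by simpa using hT.le)
  have hc : 0 < 2 + 2 * M * K := by positivity
  obtain ⟨t, ht, ht1, ht2⟩ : ∃ t : ℝ, 0 < t ∧ M * t ≤ 1 / 2 ∧ (2 + 2 * M * K) * t ≤ w.2 := by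
    refine ⟨min (1 / 2 / M) (w.2 / (2 + 2 * M * K)), by positivity, ?_, ?_⟩
    · rw [mul_comm, ← le_div_iff₀ hM]; exact min_le_left _ _
    · rw [mul_comm, ← le_div_iff₀ hc]; exact min_le_right _ _
  refine ⟨h0, t, ht, fun v hv hvt j' => ?_⟩
  obtain ⟨μ, hμ, -, h1, hbd2, hnear⟩ := B.radial hw.1 (w.1 + v) (by simpa using hvt) ht1
  have h2 := h _ hbd2 (hnear.trans ht2)
  rw [map_smul, map_add, h0, hv, add_zero, smul_eq_mul, mul_one, inv_eq_one] at h2
  rw [← h2]; exact h1 j'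

end Body

/-- Nested windows shrink to a point. -/
lemma nested [CompleteSpace L] (w : ℕ → L × ℝ) (hpos : ∀ n, 0 < (w n).2)
    (hsub : ∀ n, Sub (w (n + 1)) (w n)) :
    (∀ n m, n < m → Sub (w m) (w n)) ∧ Tendsto (fun n => (w n).2) atTop (𝓝 0) ∧
      ∃ y, ∀ n, ‖y - (w n).1‖ ≤ (w n).2 := by
  have h1 : ∀ n m, n < m → Sub (w m) (w n) := by
    intro n m hnm
    induction m, hnm using Nat.le_induction with
    | base => exact hsub n
    | succ m _ ih => exact (hsub m).trans ih (hpos m)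
  have h2 : ∀ n, (w n).2 ≤ (w 0).2 * (1 / 2) ^ n := by
    intro n
    induction n with
    | zero => simp
    | succ n ih =>
      have := hsub n
      unfold Sub at this
      have := norm_nonneg ((w (n + 1)).1 - (w n).1)
      rw [pow_succ]; linarith
  have h3 : Tendsto (fun n => (w n).2) atTop (𝓝 0) := by
    refine squeeze_zero (fun n => (hpos n).le) h2 ?_
    simpa using (tendsto_pow_atTop_nhds_zero_of_lt_one (r := (1 / 2 : ℝ)) (by norm_num)
      (by norm_num)).const_mul (w 0).2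
  have h4 : ∀ n m, n ≤ m → ‖(w m).1 - (w n).1‖ ≤ (w n).2 := by
    intro n m hnm
    rcases hnm.eq_or_lt with rfl | hnm
    · simpa using (hpos n).le
    · exact (h1 n m hnm).mem (hpos m) (by simpa using (hpos m).le)
  have hc : CauchySeq fun n => (w n).1 := by
    refine cauchySeq_of_le_tendsto_0' (fun n => (w n).2) (fun n m hnm => ?_) h3
    rw [dist_comm, dist_eq_norm]; exact h4 n m hnm
  obtain ⟨y, hy⟩ := cauchySeq_tendsto_of_complete hc
  refine ⟨h1, h3, y, fun n => ?_⟩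
  exact le_of_tendsto ((hy.sub_const (w n).1).norm) (eventually_atTop.2 ⟨n, fun m hm => h4 n m hm⟩)

end Pool.Agent.P.MP_73700b_an.Reg
end

-- part Pool.Agent.P.MP_73700b_an.RegC
section

/-!
Cells of a family of affine functions: limits of cells that approach a point.
-/

namespace Pool.Agent.P.MP_73700b_an.Reg

open Filter Topology

variable {X : Type*} [NormedAddCommGroup X] [NormedSpace ℝ X] {ι : Type*}

/-- The cell where the affine function with index `i` is the largest. -/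
def cell (φ : ι → X →L[ℝ] ℝ) (κ : ι → ℝ) (i : ι) : Set X :=
  {x | ∀ j, φ j x + κ j ≤ φ i x + κ i}

/-- The ball of radius `r` about `a` lies in the cell. -/
def Inner (φ : ι → X →L[ℝ] ℝ) (κ : ι → ℝ) (r : ℝ) (i : ι) (a : X) : Prop :=
  ∀ h, ‖h‖ ≤ r → a + h ∈ cell φ κ i

variable {φ : ι → X →L[ℝ] ℝ} {κ : ι → ℝ} {r : ℝ}

lemma Inner.gap (hr : 0 < r) {i : ι} {a : X} (h : Inner φ κ r i a) (j : ι) :
    r * ‖φ i - φ j‖ ≤ (φ i a + κ i) - (φ j a + κ j) := by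
  refine aff_bound _ hr fun v hv => ?_
  have := h v hv j
  simp only [map_add, sub_apply] at this ⊢
  linarith

lemma Inner.sep (hinj : ∀ i j, φ i = φ j → κ i = κ j → i = j) (hr : 0 < r) {i j : ι} {a b : X}
    (ha : Inner φ κ r i a) (hb : Inner φ κ r j b) (hij : i ≠ j) : 2 * r ≤ ‖a - b‖ := by
  have h1 := ha.gap hr j
  have h2 := hb.gap hr i
  rw [norm_sub_rev] at h2
  by_cases h : φ i = φ j
  · exfalso
    rw [h] at h1 h2
    simp only [sub_self, norm_zero, mul_zero] at h1 h2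
    exact hij (hinj i j h (by linarith))
  · have h3 : 0 < ‖φ i - φ j‖ := norm_pos_iff.2 (sub_ne_zero.2 h)
    have h4 := (φ i - φ j).le_opNorm (a - b)
    have h5 := le_abs_self ((φ i - φ j) (a - b))
    rw [Real.norm_eq_abs] at h4
    have h6 : (φ i - φ j) (a - b) = φ i a - φ j a - (φ i b - φ j b) := by
      simp only [map_sub, sub_apply]
    have h7 : ‖φ i - φ j‖ * (2 * r) ≤ ‖φ i - φ j‖ * ‖a - b‖ := by linarith
    exact le_of_mul_le_mul_left h7 h3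

/-- Two cells close to a point of a third one, in nearly the same direction, have comparable
slopes. -/
lemma ratio (hr : 0 < r) {i j k : ι} {y x a : X} {D : ℝ} (hy : y ∈ cell φ κ i)
    (hx : x ∈ cell φ κ k) (hxy : ‖x - y‖ ≤ r) (ha : Inner φ κ r j a) (haD : ‖a - y‖ ≤ D)
    {g g' : X →L[ℝ] ℝ} {N N' : ℝ} (hN : 0 < N) (hN' : 0 < N') (hg : φ k - φ i = N • g)
    (hg' : φ j - φ i = N' • g') (hn : ‖g'‖ = 1) (hgg : ‖g - g'‖ * D < r / 2) : N < 2 * N' := by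
  by_contra hc
  push Not at hc
  have h1 := ha.gap hr i
  have h2 := ha.gap hr k
  have h3 := hy j
  have h4 := hx j
  rw [hg', norm_smul, hn, Real.norm_eq_abs, abs_of_pos hN', mul_one] at h1
  have e1 : φ j (a - y) - φ i (a - y) = N' * g' (a - y) := by
    rw [← sub_apply, hg']; simp
  have e2 : φ k (a - y) - φ i (a - y) = N * g (a - y) := by
    rw [← sub_apply, hg]; simp
  have h5 : r ≤ g' (a - y) := by
    refine le_of_mul_le_mul_left (a := N') ?_ hN'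
    rw [← e1]; simp only [map_sub]; linarith
  have h6 : |(φ j - φ k) (x - y)| ≤ ‖φ j - φ k‖ * r := by
    have := (φ j - φ k).le_opNorm (x - y)
    rw [Real.norm_eq_abs] at this
    exact this.trans (mul_le_mul_of_nonneg_left hxy (norm_nonneg _))
  have h7 : 0 ≤ φ j (a - y) - φ k (a - y) := by
    have := (abs_le.1 h6).1
    simp only [map_sub, sub_apply] at this ⊢
    linarith
  have h8 : |(g - g') (a - y)| ≤ ‖g - g'‖ * D := by
    have := (g - g').le_opNorm (a - y)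
    rw [Real.norm_eq_abs] at this
    exact this.trans (mul_le_mul_of_nonneg_left haD (norm_nonneg _))
  have h9 : g' (a - y) - r / 2 < g (a - y) := by
    have := (abs_le.1 h8).1
    rw [sub_apply] at this
    linarith
  have h10 : N * g (a - y) ≤ N' * g' (a - y) := by linarith
  generalize g (a - y) = s at h9 h10
  generalize g' (a - y) = s' at h5 h9 h10
  nlinarith

lemma dir_lim {Y : Type*} [NormedAddCommGroup Y] [NormedSpace ℝ Y] (U : Ultrafilter ℕ)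
    (v : ℕ → Y) (hv : ∀ n, 0 < ‖v n‖) (E : Submodule ℝ Y) [FiniteDimensional ℝ E]
    (ε : ℕ → ℝ) (hε : Tendsto ε U (𝓝 0)) (hw : ∀ n, ∃ w ∈ E, ‖v n - w‖ ≤ ε n * ‖v n‖) :
    ∃ u0, Tendsto (fun n => ‖v n‖⁻¹ • v n) U (𝓝 u0) := by
  choose w hwE hw using hw
  let u : ℕ → E := fun n => ⟨‖v n‖⁻¹ • w n, E.smul_mem _ (hwE n)⟩
  have hgu : ∀ n, ‖‖v n‖⁻¹ • v n - u n‖ ≤ ε n := fun n => by
    simp only [u]
    rw [← smul_sub, norm_smul, Real.norm_eq_abs, abs_of_pos (inv_pos.2 (hv n)),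
      inv_mul_le_iff₀ (hv n), mul_comm]
    exact hw n
  have hu2 : ∀ᶠ n in (U : Filter ℕ), u n ∈ Metric.closedBall (0 : E) 2 := by
    filter_upwards [hε.eventually (gt_mem_nhds zero_lt_one)] with n hn
    rw [mem_closedBall_zero_iff]
    have h1 := norm_sub_norm_le (u n : Y) (‖v n‖⁻¹ • v n)
    rw [norm_sub_rev, norm_smul ‖v n‖⁻¹ (v n), norm_inv, norm_norm,
      inv_mul_cancel₀ (hv n).ne'] at h1
    have := hgu n
    change ‖(u n : Y)‖ ≤ 2
    linarith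
  have : ProperSpace E := FiniteDimensional.proper_real E
  obtain ⟨u0, -, hu0⟩ := exists_lim_of_compact U u (isCompact_closedBall (0 : E) 2) hu2
  have hu1 : Tendsto (fun n => (u n : Y)) U (𝓝 u0) :=
    (continuous_subtype_val.tendsto u0).comp hu0
  have h1 : Tendsto (fun n => ‖v n‖⁻¹ • v n - u n) U (𝓝 0) := squeeze_zero_norm hgu hε
  exact ⟨u0, by simpa using h1.add hu1⟩

/-- The slopes of cells that approach a point of a cell converge to a different slope, if their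
directions stay close to a finite-dimensional space. -/
lemma slope_lim (hr : 0 < r) (U : Ultrafilter ℕ) {i : ι} {y : X} (hy : y ∈ cell φ κ i)
    (j : ℕ → ι) (x a : ℕ → X) (hx : ∀ n, x n ∈ cell φ κ (j n))
    (hxy : Tendsto (fun n => ‖x n - y‖) U (𝓝 0)) (ha : ∀ n, Inner φ κ r (j n) (a n)) {D : ℝ}
    (hD : 0 < D) (haD : ∀ n, ‖a n - y‖ ≤ D) (E : Submodule ℝ (X →L[ℝ] ℝ)) [FiniteDimensional ℝ E]
    (ε : ℕ → ℝ) (hε : Tendsto ε U (𝓝 0))
    (hw : ∀ n, ∃ w ∈ E, ‖φ (j n) - φ i - w‖ ≤ ε n * ‖φ (j n) - φ i‖)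
    (hne : ∀ n, φ (j n) ≠ φ i) :
    ∃ ψ, ψ ≠ 0 ∧ Tendsto (fun n => φ (j n) - φ i) U (𝓝 ψ) := by
  let N : ℕ → ℝ := fun n => ‖φ (j n) - φ i‖
  have hN : ∀ n, 0 < N n := fun n => norm_pos_iff.2 (sub_ne_zero.2 (hne n))
  let g : ℕ → X →L[ℝ] ℝ := fun n => (N n)⁻¹ • (φ (j n) - φ i)
  have hg : ∀ n, φ (j n) - φ i = N n • g n := fun n => by
    simp only [g, smul_smul, mul_inv_cancel₀ (hN n).ne', one_smul]
  have hg1 : ∀ n, ‖g n‖ = 1 := fun n => by
    simp only [g]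
    rw [norm_smul, Real.norm_eq_abs, abs_of_pos (inv_pos.2 (hN n))]
    exact inv_mul_cancel₀ (hN n).ne'
  obtain ⟨u0, hglim⟩ : ∃ u0, Tendsto g U (𝓝 u0) :=
    dir_lim U (fun n => φ (j n) - φ i) hN E ε hε hw
  have hn0 : ‖(u0 : X →L[ℝ] ℝ)‖ = 1 :=
    tendsto_nhds_unique hglim.norm (by simpa only [hg1] using tendsto_const_nhds)
  have hP : ∀ᶠ n in (U : Filter ℕ), ‖g n - u0‖ < r / (4 * D) ∧ ‖x n - y‖ ≤ r := by
    refine Eventually.and ?_ ?_
    · exact (tendsto_iff_norm_sub_tendsto_zero.1 hglim).eventually (gt_mem_nhds (by positivity))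
    · exact (hxy.eventually (gt_mem_nhds hr)).mono fun n hn => hn.le
  have hrat : ∀ n m, (‖g n - u0‖ < r / (4 * D) ∧ ‖x n - y‖ ≤ r) →
      (‖g m - u0‖ < r / (4 * D) ∧ ‖x m - y‖ ≤ r) → N n < 2 * N m := by
    intro n m hn hm
    refine ratio hr hy (hx n) hn.2 (ha m) (haD m) (hN n) (hN m) (hg n) (hg m) (hg1 m) ?_
    have h1 := norm_sub_le_norm_sub_add_norm_sub (g n) u0 (g m)
    rw [norm_sub_rev (u0 : X →L[ℝ] ℝ)] at h1
    have h2 : ‖g n - g m‖ < r / (2 * D) := by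
      have : r / (2 * D) = r / (4 * D) + r / (4 * D) := by field_simp; ring
      linarith [hn.1, hm.1]
    rw [lt_div_iff₀ (by positivity)] at h2
    linarith
  obtain ⟨m, hm⟩ := hP.exists
  obtain ⟨N0, hN0, hNlim⟩ := exists_lim_of_compact U N
    (isCompact_Icc (a := N m / 2) (b := 2 * N m))
    (hP.mono fun n hn => ⟨by linarith [hrat m n hm hn], (hrat n m hn hm).le⟩)
  have hN0' : 0 < N0 := (half_pos (hN m)).trans_le hN0.1
  refine ⟨N0 • (u0 : X →L[ℝ] ℝ), ?_, ?_⟩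
  · intro h
    have := congrArg norm h
    rw [norm_smul, hn0, norm_zero, mul_one, Real.norm_eq_abs, abs_of_pos hN0'] at this
    exact hN0'.ne' this
  · simpa only [hg] using hNlim.smul hglim

/-- The limit of cells with convergent slopes is a cell. -/
lemma real_cell (hcov : ∀ x, ∃ i, x ∈ cell φ κ i) (hr : 0 < r) (U : Ultrafilter ℕ) {i : ι}
    {y : X} (hy : y ∈ cell φ κ i) (j : ℕ → ι) (x a : ℕ → X) (hx : ∀ n, x n ∈ cell φ κ (j n))
    (hxy : Tendsto (fun n => ‖x n - y‖) U (𝓝 0)) (ha : ∀ n, Inner φ κ r (j n) (a n)) {D : ℝ}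
    (haD : ∀ n, ‖a n - y‖ ≤ D) (p : X →L[ℝ] ℝ) (hp : Tendsto (fun n => φ (j n)) U (𝓝 p))
    (b : X) (hb : ∀ f : X →L[ℝ] ℝ, Tendsto (fun n => f (a n)) U (𝓝 (f b))) :
    ∃ k, φ k = p ∧ y ∈ cell φ κ k ∧ Inner φ κ r k b := by
  have h0 : Tendsto (fun n => ‖φ (j n) - p‖) U (𝓝 0) := tendsto_iff_norm_sub_tendsto_zero.1 hp
  have h1 : Tendsto (fun n => φ (j n) y + κ (j n)) U (𝓝 (φ i y + κ i)) := by
    have h2 : Tendsto (fun n => ‖φ (j n) - φ i‖ * ‖x n - y‖) U (𝓝 0) := by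
      simpa using (hp.sub_const (φ i)).norm.mul hxy
    have h3 : Tendsto (fun n => φ i y + κ i - ‖φ (j n) - φ i‖ * ‖x n - y‖) U
        (𝓝 (φ i y + κ i)) := by simpa using h2.const_sub (φ i y + κ i)
    refine tendsto_of_tendsto_of_tendsto_of_le_of_le h3 tendsto_const_nhds (fun n => ?_)
      (fun n => hy (j n))
    have h4 := hx n i
    have h5 := (φ (j n) - φ i).le_opNorm (x n - y)
    have h6 := le_abs_self ((φ (j n) - φ i) (x n - y))
    rw [Real.norm_eq_abs] at h5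
    have h7 : (φ (j n) - φ i) (x n - y) = φ (j n) (x n) - φ i (x n) - (φ (j n) y - φ i y) := by
      simp only [map_sub, sub_apply]
    simp only
    linarith
  have h2 : ∀ (u : ℕ → X) (c : X) (C : ℝ), (∀ n, ‖u n - y‖ ≤ C) →
      Tendsto (fun n => p (u n)) U (𝓝 (p c)) →
      Tendsto (fun n => φ (j n) (u n) + κ (j n)) U (𝓝 (φ i y + κ i + (p c - p y))) := by
    intro u c C hC hu
    have h3 : Tendsto (fun n => (φ (j n) - p) (u n - y)) U (𝓝 0) := by
      refine squeeze_zero_norm (fun n => ((φ (j n) - p).le_opNorm _).trans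
        (mul_le_mul_of_nonneg_left (hC n) (norm_nonneg _))) ?_
      simpa using h0.mul_const C
    have h4 := (h1.add h3).add (hu.sub_const (p y))
    rw [add_zero] at h4
    refine h4.congr fun n => ?_
    simp only [map_sub, sub_apply]
    ring
  have h3 : ∀ k h, ‖h‖ ≤ r → φ k (b + h) + κ k ≤ φ i y + κ i + (p (b + h) - p y) := by
    intro k h hh
    have h4 : ∀ f : X →L[ℝ] ℝ, Tendsto (fun n => f (a n + h)) U (𝓝 (f (b + h))) := fun f => by
      simpa only [map_add] using (hb f).add_const (f h)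
    refine le_of_tendsto_of_tendsto' ((h4 (φ k)).add_const (κ k))
      (h2 (fun n => a n + h) (b + h) (D + r) (fun n => ?_) (h4 p)) fun n => ha n h hh k
    have : a n + h - y = (a n - y) + h := by abel
    rw [this]
    exact (norm_add_le _ _).trans (add_le_add (haD n) hh)
  obtain ⟨k, hk⟩ := hcov b
  have h4 : φ i y + κ i + (p b - p y) ≤ φ k b + κ k :=
    le_of_tendsto' (h2 (fun _ => b) b ‖b - y‖ (fun _ => le_rfl) tendsto_const_nhds)
      fun n => hk (j n)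
  have h5 : r * ‖p - φ k‖ ≤ φ i y + κ i + (p b - p y) - (φ k b + κ k) := by
    refine aff_bound _ hr fun v hv => ?_
    have := h3 k v hv
    simp only [map_add, sub_apply] at this ⊢
    linarith
  have h6 : 0 ≤ r * ‖p - φ k‖ := by positivity
  have h7 : φ k = p := by
    have : r * ‖p - φ k‖ = 0 := by linarith
    rcases mul_eq_zero.1 this with h | h
    · exact absurd h hr.ne'
    · exact (sub_eq_zero.1 (norm_eq_zero.1 h)).symm
  have h8 : κ k = φ i y + κ i - p y := by rw [h7] at h4 h5; simp at h5; linarith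
  refine ⟨k, h7, fun l => ?_, fun h hh l => ?_⟩
  · have := hy l
    rw [h7, h8]; linarith
  · have := h3 l h hh
    rw [h7, h8]; linarith

end Pool.Agent.P.MP_73700b_an.Reg
end

-- part Pool.Agent.P.MP_73700b_an.RegD
section

/-!
The game on the boundary of a face.
-/

namespace Pool.Agent.P.MP_73700b_an.Reg

open Filter Topology

variable {X : Type*} [NormedAddCommGroup X] [NormedSpace ℝ X] {ι : Type*}

omit [NormedSpace ℝ X] in
/-- The primal step. -/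
lemma stepP {L : Type*} [NormedAddCommGroup L] [NormedSpace ℝ L] {J : Type*}
    {q : J → L →L[ℝ] ℝ} (Adm : L × ℝ → J → X → Prop) {w : L × ℝ} (hw : Ok q w) {G : Set X}
    {z : X} {R : ℝ} (hG : G ⊆ Metric.closedBall z R)
    (good : ∀ w', Ok q w' → Sub w' w → ∃ j a, Adm w' j a ∧ a ∈ G) (d : X) {η : ℝ} (hη : 0 < η) :
    ∃ w' s, Ok q w' ∧ Sub w' w ∧
      (∀ w'', Ok q w'' → Sub w'' w → ∃ j a, Adm w'' j a ∧ a ∈ G ∩ Metric.closedBall d (s + η)) ∧
      ∀ j a, Adm w' j a → a ∈ G → s - η ≤ ‖a - d‖ := by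
  let A : Set ℝ := {s | ∃ w', Ok q w' ∧ Sub w' w ∧ ∀ j a, Adm w' j a → a ∈ G → s ≤ ‖a - d‖}
  have hne : A.Nonempty := ⟨0, (w.1, w.2 / 2), ⟨hw.1, half_pos hw.2⟩,
    sub_self_of_le _ (by linarith), fun j a _ _ => norm_nonneg _⟩
  have hbd : BddAbove A := ⟨R + ‖z - d‖, by
    rintro s ⟨w', h1, h2, h3⟩
    obtain ⟨j, a, h4, h5⟩ := good w' h1 h2
    have h6 := hG h5
    rw [mem_closedBall_iff_norm] at h6
    have := norm_sub_le_norm_sub_add_norm_sub a z d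
    linarith [h3 j a h4 h5]⟩
  obtain ⟨s', ⟨w', h1, h2, h3⟩, hlt⟩ :=
    exists_lt_of_lt_csSup hne (show sSup A - η < sSup A by linarith)
  refine ⟨w', sSup A, h1, h2, fun w'' h4 h5 => ?_, fun j a h4 h5 => hlt.le.trans (h3 j a h4 h5)⟩
  by_contra h
  push Not at h
  have : sSup A + η ≤ sSup A := by
    refine le_csSup hbd ⟨w'', h4, h5, fun j a h6 h7 => ?_⟩
    by_contra h8
    exact h j a h6 ⟨h7, mem_closedBall_iff_norm.2 (not_le.1 h8).le⟩
  linarith

/-- The restriction of a functional to a subspace. -/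
noncomputable def res (L : Submodule ℝ X) (f : X →L[ℝ] ℝ) : L →L[ℝ] ℝ := f.comp L.subtypeL

lemma res_apply (L : Submodule ℝ X) (f : X →L[ℝ] ℝ) (v : L) : res L f v = f v := rfl

lemma norm_res_sub_le (L : Submodule ℝ X) (f g : X →L[ℝ] ℝ) : ‖res L f - res L g‖ ≤ ‖f - g‖ := by
  refine ContinuousLinearMap.opNorm_le_bound _ (norm_nonneg _) fun v => ?_
  exact (f - g).le_opNorm (v : X)

lemma Sub.memX {L : Submodule ℝ X} {w' w : L × ℝ} (h1 : Sub w' w) (z : X) (h : 0 < w'.2) {x : X}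
    (hx : ‖x - (z + w'.1)‖ ≤ w'.2) : ‖x - (z + w.1)‖ ≤ w.2 := by
  unfold Sub at h1
  have h2 := norm_sub_le_norm_sub_add_norm_sub x (z + w'.1) (z + w.1)
  rw [add_sub_add_left_eq_sub] at h2
  have h3 : ‖(w'.1 : X) - w.1‖ = ‖w'.1 - w.1‖ := rfl
  linarith

lemma Body.le_one_of_nested {L : Type*} [NormedAddCommGroup L] [NormedSpace ℝ L] {J : Type*}
    {q : J → L →L[ℝ] ℝ} {M K : ℝ} (B : Body q M K) (w : ℕ → L × ℝ) (hok : ∀ n, Ok q (w n))
    (hτ : Tendsto (fun n => (w n).2) atTop (𝓝 0)) {y : L} (hy : ∀ n, ‖y - (w n).1‖ ≤ (w n).2)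
    (k : J) : q k y ≤ 1 := by
  have h5 : Tendsto (fun n => 1 + M * (w n).2) atTop (𝓝 1) := by
    simpa using (hτ.const_mul M).const_add 1
  refine ge_of_tendsto' h5 fun n => ?_
  have h6 := (B.le_of_norm k (hy n)).1
  rw [map_sub] at h6
  linarith [(hok n).1.1 k]

variable {φ : ι → X →L[ℝ] ℝ} {κ : ι → ℝ} {r : ℝ}

theorem game (hrefl : Function.Surjective (NormedSpace.inclusionInDoubleDual ℝ X))
    (hinj : ∀ i j, φ i = φ j → κ i = κ j → i = j) (hr : 0 < r) {D : ℝ}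
    (L : Submodule ℝ X) [CompleteSpace L] {J : Type*} (e : J → ι) (he : Function.Injective e)
    {q : J → L →L[ℝ] ℝ} {M K : ℝ} (B : Body q M K) (z : X) (Small : J → ℝ → Prop)
    {w0 : L × ℝ} (hw0 : Ok q w0) (hw01 : w0.2 ≤ 1)
    (hgood : ∀ w', Ok q w' → Sub w' w0 → ∃ j a, (∃ x, ‖x - (z + w'.1)‖ ≤ w'.2 ∧
      x ∈ cell φ κ (e j)) ∧ Inner φ κ r (e j) a ∧ ‖a - z‖ ≤ D)
    (hvis : ∀ w, Ok q w → w.2 ≤ 1 → ∃ θ : ℝ, 0 < θ ∧ 2 * θ ≤ w.2 ∧ ∀ j x, ‖x - (z + w.1)‖ ≤ θ →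
      x ∈ cell φ κ (e j) → Sees q w j ∨ Small j w.2)
    (havoid : ∀ j w, Ok q w → ∃ w', Ok q w' ∧ Sub w' w ∧
      ∀ x, ‖x - (z + w'.1)‖ ≤ w'.2 → x ∉ cell φ κ (e j)) :
    ∃ (j : ℕ → J) (x : ℕ → X) (a : ℕ → X) (y : L) (p : X →L[ℝ] ℝ) (b : X) (ε : ℕ → ℝ),
      (∀ n, x n ∈ cell φ κ (e (j n))) ∧ Tendsto (fun n => ‖x n - (z + y)‖) atTop (𝓝 0) ∧
      (∀ k, q k y ≤ 1) ∧ (∀ n, Inner φ κ r (e (j n)) (a n)) ∧ (∀ n, ‖a n - z‖ ≤ D) ∧
      (∀ f : X →L[ℝ] ℝ, Tendsto (fun n => f (a n)) (hyperfilter ℕ) (𝓝 (f b))) ∧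
      Tendsto ε (hyperfilter ℕ) (𝓝 0) ∧
      (∀ᶠ n in (hyperfilter ℕ : Filter ℕ), ((∃ x', ‖x'‖ ≤ K + 1 ∧ 1 ≤ q (j n) x') ∧
        ‖q (j n) - res L p‖ ≤ ε n) ∨ Small (j n) (ε n)) ∧
      ∀ k, z + y ∈ cell φ κ (e k) → ¬ Inner φ κ r (e k) b := by
  have hext : ∀ j, ∃ g : X →L[ℝ] ℝ, res L g = q j ∧ ‖g‖ ≤ M := fun j => by
    obtain ⟨g, h1, h2⟩ := exists_extension_norm_eq L (q j)
    exact ⟨g, ContinuousLinearMap.ext h1, h2.trans_le (B.hM j)⟩
  choose qh hqh hqM using hext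
  let Adm : L × ℝ → J → X → Prop := fun w j a =>
    (∃ x, ‖x - (z + w.1)‖ ≤ w.2 ∧ x ∈ cell φ κ (e j)) ∧ Inner φ κ r (e j) a
  have Adm_mono : ∀ {w' w j a}, Adm w' j a → Sub w' w → 0 < w'.2 → Adm w j a := by
    rintro w' w j a ⟨⟨x, h1, h2⟩, h3⟩ h4 h5
    exact ⟨⟨x, h4.memX z h5 h1, h2⟩, h3⟩
  have hbound : ∀ {w : L × ℝ} {x : L}, Ok q w → w.2 ≤ 1 → ‖x - w.1‖ ≤ w.2 → ‖x‖ ≤ K + 1 := by
    intro w x h1 h2 h3
    have h4 := B.hK _ h1.1.1
    have := norm_sub_norm_le x w.1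
    linarith
  have Sub_le : ∀ {w' w : L × ℝ}, Sub w' w → 0 < w'.2 → w'.2 ≤ w.2 := by
    intro w' w h1 h2
    unfold Sub at h1
    linarith [norm_nonneg (w'.1 - w.1)]
  let P : (L × ℝ) × Set X → Prop := fun s => Ok q s.1 ∧ s.1.2 ≤ 1 ∧ Convex ℝ s.2 ∧
    IsClosed s.2 ∧ s.2 ⊆ Metric.closedBall z D ∧
    ∀ w', Ok q w' → Sub w' s.1 → ∃ j a, Adm w' j a ∧ a ∈ s.2
  have hP0 : P (w0, Metric.closedBall z D) := by
    refine ⟨hw0, hw01, convex_closedBall _ _, Metric.isClosed_closedBall,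
      subset_rfl, fun w' h1 h2 => ?_⟩
    obtain ⟨j, a, h3, h4, h5⟩ := hgood w' h1 h2
    exact ⟨j, a, ⟨h3, h4⟩, mem_closedBall_iff_norm.2 h5⟩
  let R : ℕ → {s // P s} → (X →L[ℝ] ℝ) × X → {s // P s} → (X →L[ℝ] ℝ) × X → Prop :=
    fun n s d s' y => Sub s'.1.1 s.1.1 ∧ s'.1.2 ⊆ s.1.2 ∧
      (∃ (v : L) (t : ℝ), ‖v‖ ≤ 1 ∧ ∀ j, Sees q s'.1.1 j →
        t - 1 / ((n : ℝ) + 1) ≤ (q j - res L d.1) v ∧ ‖q j - res L d.1‖ ≤ t + 1 / ((n : ℝ) + 1)) ∧
      (∃ t : ℝ, s'.1.2 ⊆ Metric.closedBall d.2 (t + r / 8) ∧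
        ∀ j a, Adm s'.1.1 j a → a ∈ s'.1.2 → t - r / 8 ≤ ‖a - d.2‖) ∧
      ∃ j, y.1 = qh j ∧ Adm s.1.1 j y.2 ∧ y.2 ∈ s.1.2 ∧ (Sees q s.1.1 j ∨ Small j s.1.1.2) ∧
        ∀ a, ¬ Adm s'.1.1 j a
  have hR : ∀ n s d, ∃ s' y, R n s d s' y := by
    rintro n ⟨⟨w, G⟩, hw, hw1, hc, hcl, hG, good⟩ ⟨d1, d2⟩
    simp only at hw hw1 hc hcl hG good
    obtain ⟨θ, hθ, hθ2, hθ3⟩ := hvis w hw hw1
    obtain ⟨j, a, hja, haG⟩ := good (w.1, θ) ⟨hw.1, hθ⟩ (sub_self_of_le _ hθ2)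
    have hja' : Adm w j a := Adm_mono hja (sub_self_of_le _ hθ2) hθ
    have hja2 : Sees q w j ∨ Small j w.2 := by
      obtain ⟨⟨x, h1, h2⟩, -⟩ := hja
      exact hθ3 j x h1 h2
    obtain ⟨w1, hw1o, hw1s, v, t, hv, hA⟩ := B.stepA hw (res L d1)
      (show 0 < 1 / ((n : ℝ) + 1) by positivity)
    obtain ⟨w2, s, hw2o, hw2s, good2, hlow⟩ := stepP Adm hw1o hG
      (fun w' h1 h2 => good w' h1 (h2.trans hw1s hw1o.2)) d2 (show 0 < r / 8 by positivity)
    obtain ⟨w3, hw3o, hw3s, hns⟩ := havoid j w2 hw2o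
    have h31 : Sub w3 w1 := hw3s.trans hw2s hw2o.2
    have h30 : Sub w3 w := h31.trans hw1s hw1o.2
    refine ⟨⟨(w3, G ∩ Metric.closedBall d2 (s + r / 8)), hw3o, (Sub_le h30 hw3o.2).trans hw1,
      hc.inter (convex_closedBall _ _), hcl.inter Metric.isClosed_closedBall,
      Set.inter_subset_left.trans hG, fun w' h1 h2 => good2 w' h1 (h2.trans h31 hw3o.2)⟩,
      (qh j, a), h30, Set.inter_subset_left, ⟨v, t, hv, fun k hk => hA k (hk.mono h31 hw3o.2)⟩,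
      ⟨s, Set.inter_subset_right, fun k a' h1 h2 => hlow k a' (Adm_mono h1 hw3s hw3o.2) h2.1⟩,
      j, rfl, hja', haG, hja2, ?_⟩
    rintro a' ⟨⟨x, h1, h2⟩, -⟩
    exact hns x h1 h2
  obtain ⟨s, d, y, hs, hd⟩ := adaptive ⟨_, hP0⟩ R hR
  choose h1 h2 h3 h4 j hj1 hj2 hj3 hj5 hj4 using hs
  have hok : ∀ n, Ok q (s n).1.1 := fun n => (s n).2.1
  obtain ⟨hsub, hτ, yl, hyl⟩ := nested (fun n => (s n).1.1) (fun n => (hok n).2) h1
  have hG : ∀ n m, n ≤ m → (s m).1.2 ⊆ (s n).1.2 := by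
    intro n m hnm
    induction m, hnm using Nat.le_induction with
    | base => exact subset_rfl
    | succ m _ ih => exact (h2 m).trans ih
  have hsees : ∀ n m, n ≤ m → Sees q (s m).1.1 (j m) → Sees q (s n).1.1 (j m) := by
    intro n m hnm h
    rcases hnm.eq_or_lt with rfl | hnm
    · exact h
    · exact h.mono (hsub n m hnm) (hok m).2
  have hylX : ∀ n, ‖(z + yl) - (z + (s n).1.1.1)‖ ≤ (s n).1.1.2 := fun n => by
    rw [add_sub_add_left_eq_sub]; exact hyl n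
  choose x hx1 hx2 using fun n => (hj2 n).1
  have haz : ∀ n, ‖(y n).2 - z‖ ≤ D := fun n =>
    mem_closedBall_iff_norm.1 ((s n).2.2.2.2.2.1 (hj3 n))
  obtain ⟨p, hp⟩ := exists_wstar_lim (hyperfilter ℕ) (fun n => (y n).1) M
    fun n => by rw [hj1]; exact hqM _
  obtain ⟨b, hb⟩ := exists_weak_lim hrefl (hyperfilter ℕ) (fun n => (y n).2) (D + ‖z‖)
    fun n => by linarith [haz n, norm_sub_norm_le (y n).2 z]
  have hev : ∀ n, ∀ᶠ m in (hyperfilter ℕ : Filter ℕ), n ≤ m := fun n =>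
    Nat.hyperfilter_le_atTop (eventually_ge_atTop n)
  have hε : ∃ ε : ℕ → ℝ, Tendsto ε (hyperfilter ℕ) (𝓝 0) ∧
      (∀ᶠ n in (hyperfilter ℕ : Filter ℕ), ((∃ x', ‖x'‖ ≤ K + 1 ∧ 1 ≤ q (j n) x') ∧
        ‖q (j n) - res L p‖ ≤ ε n) ∨ Small (j n) (ε n)) := by
    by_cases hU : ∀ᶠ n in (hyperfilter ℕ : Filter ℕ), Sees q (s n).1.1 (j n)
    · refine ⟨fun n => ‖q (j n) - res L p‖, ?_, hU.mono fun n hn => Or.inl ⟨?_, le_rfl⟩⟩
      · rw [Metric.tendsto_nhds]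
        intro ε hε
        obtain ⟨l, hl⟩ := approx_of_weak_lim (hyperfilter ℕ) (fun n => (y n).1) p
          (weak_of_wstar hrefl _ _ _ hp) (show 0 < ε / 4 by positivity)
        obtain ⟨N, hN⟩ := exists_nat_one_div_lt (show 0 < ε / 4 by positivity)
        obtain ⟨n, hn, hdn⟩ := hd l N
        have hd1 : (d n).1 = comb (fun n => (y n).1) l := by
          rw [hdn]; exact map_comb (ContinuousLinearMap.fst ℝ _ _) y l
        obtain ⟨v, t, hv, hA⟩ := h3 n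
        have hη : 1 / ((n : ℝ) + 1) < ε / 4 :=
          (Nat.one_div_le_one_div hn).trans_lt hN
        have h5 : t - 1 / ((n : ℝ) + 1) ≤ (res L p - res L (d n).1) v := by
          refine ge_of_tendsto ((hp v).sub_const ((d n).1 v))
            (((hev (n + 1)).and hU).mono fun m hm => ?_)
          have := (hA _ (hsees _ _ hm.1 hm.2)).1
          rw [← hqh, ← hj1] at this
          exact this
        have h6 : (res L p - res L (d n).1) v ≤ ‖p - (d n).1‖ := by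
          have h7 := (res L p - res L (d n).1).le_opNorm v
          have h8 := norm_res_sub_le L p (d n).1
          have h9 := le_abs_self ((res L p - res L (d n).1) v)
          rw [Real.norm_eq_abs] at h7
          nlinarith [norm_nonneg (res L p - res L (d n).1)]
        refine ((hev (n + 1)).and hU).mono fun m hm => ?_
        rw [Real.dist_eq, sub_zero, abs_of_nonneg (norm_nonneg (q (j m) - res L p))]
        have h7 := (hA _ (hsees _ _ hm.1 hm.2)).2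
        have h8 := norm_sub_le_norm_sub_add_norm_sub (q (j m)) (res L (d n).1) (res L p)
        have h9 := norm_res_sub_le L (d n).1 p
        rw [norm_sub_rev (d n).1] at h9
        rw [← hd1] at hl
        linarith
      · obtain ⟨x', h5, h6⟩ := hn
        exact ⟨x', hbound (hok n) (s n).2.2.1 h5, h6⟩
    · rw [← Ultrafilter.eventually_not] at hU
      exact ⟨fun n => (s n).1.1.2, hτ.mono_left Nat.hyperfilter_le_atTop,
        hU.mono fun n hn => Or.inr ((hj5 n).resolve_left hn)⟩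
  obtain ⟨ε, hε1, hε2⟩ := hε
  refine ⟨j, x, fun n => (y n).2, yl, p, b, ε, hx2, ?_, fun k => ?_,
    fun n => (hj2 n).2, haz, hb, hε1, hε2, fun k hk hkb => ?_⟩
  · refine squeeze_zero (fun n => norm_nonneg _) (fun n => ?_) (by simpa using hτ.add hτ)
    have := norm_sub_le_norm_sub_add_norm_sub (x n) (z + (s n).1.1.1) (z + yl)
    rw [norm_sub_rev (z + (s n).1.1.1)] at this
    linarith [hx1 n, hylX n]
  · exact B.le_one_of_nested (fun n => (s n).1.1) hok hτ hyl k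
  · obtain ⟨l, hl⟩ := approx_of_weak_lim (hyperfilter ℕ) (fun n => (y n).2) b hb
      (show 0 < r / 4 by positivity)
    obtain ⟨n, -, hdn⟩ := hd l 0
    have hd2 : (d n).2 = comb (fun n => (y n).2) l := by
      rw [hdn]; exact map_comb (ContinuousLinearMap.snd ℝ _ _) y l
    obtain ⟨t, h5, h6⟩ := h4 n
    have hbG : b ∈ (s (n + 1)).1.2 :=
      mem_of_weak_lim (hyperfilter ℕ) _ b hb (s (n + 1)).2.2.2.1 (s (n + 1)).2.2.2.2.1
        ((hev (n + 1)).mono fun m hm => hG _ _ hm (hj3 m))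
    have h7 := h6 k b ⟨⟨z + yl, hylX _, hk⟩, hkb⟩ hbG
    rw [← hd2] at hl
    have h8 := mem_closedBall_iff_norm.1 (h5 (hj3 (n + 1)))
    have h9 := mem_closedBall_iff_norm.1 (h5 (h2 (n + 1) (hj3 (n + 2))))
    have hne : e (j (n + 1)) ≠ e (j (n + 2)) := fun h =>
      hj4 (n + 1) _ (he h ▸ hj2 (n + 2))
    have h10 := Inner.sep hinj hr (hj2 (n + 1)).2 (hj2 (n + 2)).2 hne
    have h11 := norm_sub_le_norm_sub_add_norm_sub (y (n + 1)).2 (d n).2 (y (n + 2)).2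
    rw [norm_sub_rev (d n).2] at h11
    linarith

end Pool.Agent.P.MP_73700b_an.Reg
end

-- part Pool.Agent.P.MP_73700b_an.RegE
section

/-!
One step: a fat face extends to one more cell, or it has a point approached by tiny cells only.
-/

namespace Pool.Agent.P.MP_73700b_an.Reg

open Filter Topology

variable {X : Type*} [NormedAddCommGroup X] [NormedSpace ℝ X] {ι : Type*}

/-- The common kernel of finitely many functionals. -/
def kers (Γ : Finset (X →L[ℝ] ℝ)) : Submodule ℝ X where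
  carrier := {v | ∀ γ ∈ Γ, γ v = 0}
  add_mem' := fun ha hb γ hγ => by rw [map_add, ha γ hγ, hb γ hγ, add_zero]
  zero_mem' := fun γ _ => by simp
  smul_mem' := fun c v hv γ hγ => by rw [map_smul, hv γ hγ, smul_zero]

/-- The cells in `S` contain a neighbourhood of `z` in a flat of finite codimension. -/
def Fat (φ : ι → X →L[ℝ] ℝ) (κ : ι → ℝ) (S : Finset ι) (Γ : Finset (X →L[ℝ] ℝ)) (z : X) :
    Prop :=
  (∀ v ∈ kers Γ, ∀ i ∈ S, ∀ i' ∈ S, φ i v = φ i' v) ∧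
    ∃ ρ : ℝ, 0 < ρ ∧ ∀ v ∈ kers Γ, ‖v‖ ≤ ρ → ∀ i ∈ S, z + v ∈ cell φ κ i

/-- The point `y` is approached by cells outside `S`, and these are tiny. -/
def Tiny (φ : ι → X →L[ℝ] ℝ) (κ : ι → ℝ) (sz : ι → ℝ) (S : Finset ι) (y : X) : Prop :=
  (∀ r : ℝ, 0 < r → ∃ τ : ℝ, 0 < τ ∧ ∀ j, j ∉ S → ∀ x ∈ cell φ κ j, ‖x - y‖ ≤ τ → sz j < r) ∧
    ∀ τ : ℝ, 0 < τ → ∃ j, j ∉ S ∧ ∃ x ∈ cell φ κ j, ‖x - y‖ ≤ τ

/-- Uniformly fat bounded cells that cover the space. -/
structure Cells (φ : ι → X →L[ℝ] ℝ) (κ : ι → ℝ) (sz : ι → ℝ) (ctr : ι → X) (C : ℝ) : Prop where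
  hinj : ∀ i j, φ i = φ j → κ i = κ j → i = j
  hcov : ∀ x, ∃ i, x ∈ cell φ κ i
  C_pos : 0 < C
  sz_pos : ∀ i, 0 < sz i
  inner : ∀ i, Inner φ κ (sz i) i (ctr i)
  outer : ∀ i, ∀ x ∈ cell φ κ i, ‖x - ctr i‖ ≤ C * sz i

variable {φ : ι → X →L[ℝ] ℝ} {κ : ι → ℝ} {sz : ι → ℝ} {ctr : ι → X} {C : ℝ}

lemma kers_closed (Γ : Finset (X →L[ℝ] ℝ)) : IsClosed (kers Γ : Set X) := by
  have : (kers Γ : Set X) = ⋂ γ ∈ Γ, {v | γ v = 0} := by
    ext v; simp only [Set.mem_iInter]; rfl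
  rw [this]
  exact isClosed_biInter fun γ _ => isClosed_eq γ.continuous continuous_const

lemma kers_ne (hinf : ¬ FiniteDimensional ℝ X) (Γ : Finset (X →L[ℝ] ℝ)) :
    ∃ v : kers Γ, v ≠ 0 := by
  by_contra h
  push Not at h
  let T : X →ₗ[ℝ] (Γ → ℝ) := LinearMap.pi fun γ : Γ => (γ : X →L[ℝ] ℝ)
  refine hinf (FiniteDimensional.of_injective T ?_)
  rw [injective_iff_map_eq_zero]
  intro v hv
  have hv' : v ∈ kers Γ := fun γ hγ => congrFun hv ⟨γ, hγ⟩
  exact congrArg Subtype.val (h ⟨v, hv'⟩)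

lemma mem_span_of_kers (Γ : Finset (X →L[ℝ] ℝ)) (f : X →L[ℝ] ℝ)
    (hf : ∀ v ∈ kers Γ, f v = 0) :
    f ∈ Submodule.span ℝ (Set.range fun γ : Γ => (γ : X →L[ℝ] ℝ)) := by
  have h : (f : X →ₗ[ℝ] ℝ) ∈ Submodule.span ℝ
      (Set.range fun γ : Γ => ((γ : X →L[ℝ] ℝ) : X →ₗ[ℝ] ℝ)) := by
    refine mem_span_of_iInf_ker_le_ker fun v hv => ?_
    rw [Submodule.mem_iInf] at hv
    exact hf v fun γ hγ => hv ⟨γ, hγ⟩
  obtain ⟨c, hc⟩ := (Submodule.mem_span_range_iff_exists_fun ℝ).1 h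
  refine (Submodule.mem_span_range_iff_exists_fun ℝ).2 ⟨c, ?_⟩
  ext v
  have := LinearMap.congr_fun hc v
  simpa using this

lemma cell_closed (i : ι) : IsClosed (cell φ κ i) := by
  have : cell φ κ i = ⋂ j, {x | φ j x + κ j ≤ φ i x + κ i} := by
    ext x; simp only [Set.mem_iInter]; rfl
  rw [this]
  exact isClosed_iInter fun j => isClosed_le (by fun_prop) (by fun_prop)

lemma Cells.plump (T : Cells φ κ sz ctr C) {r : ℝ} (hr : 0 < r) {i : ι} (hi : r ≤ sz i) {x : X}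
    (hx : x ∈ cell φ κ i) : ∃ a, ‖a - x‖ ≤ C * r ∧ Inner φ κ r i a := by
  have hs := T.sz_pos i
  have ht : 0 < r / sz i := by positivity
  have ht1 : r / sz i ≤ 1 := (div_le_one hs).2 hi
  refine ⟨x + (r / sz i) • (ctr i - x), ?_, fun h hh k => ?_⟩
  · rw [add_sub_cancel_left, norm_smul, Real.norm_eq_abs, abs_of_pos ht, norm_sub_rev]
    calc r / sz i * ‖x - ctr i‖ ≤ r / sz i * (C * sz i) :=
          mul_le_mul_of_nonneg_left (T.outer i x hx) ht.le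
      _ = C * r := by field_simp
  · have h1 := T.inner i ((r / sz i)⁻¹ • h) (by
      rw [norm_smul, Real.norm_eq_abs, abs_of_pos (inv_pos.2 ht), inv_mul_le_iff₀ ht,
        div_mul_cancel₀ _ hs.ne']
      exact hh) k
    have h2 := hx k
    generalize r / sz i = t at ht ht1 h1
    simp only [map_add, map_smul, map_sub, smul_eq_mul] at h1 ⊢
    have h3 := mul_le_mul_of_nonneg_left h1 ht.le
    have h4 := mul_le_mul_of_nonneg_left h2 (sub_nonneg.2 ht1)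
    have e1 : t * (t⁻¹ * φ k h) = φ k h := by field_simp
    have e2 : t * (t⁻¹ * φ i h) = φ i h := by field_simp
    nlinarith

theorem step [CompleteSpace X] [DecidableEq ι] [DecidableEq (X →L[ℝ] ℝ)]
    (hinf : ¬ FiniteDimensional ℝ X)
    (hrefl : Function.Surjective (NormedSpace.inclusionInDoubleDual ℝ X))
    (T : Cells φ κ sz ctr C) (S : Finset ι) {i0 : ι} (hi0 : i0 ∈ S) (Γ : Finset (X →L[ℝ] ℝ))
    (z : X) (hS : Fat φ κ S Γ z) :
    (∃ j, j ∉ S ∧ ∃ Γ' z', Γ ⊆ Γ' ∧ z' - z ∈ kers Γ ∧ Fat φ κ (insert j S) Γ' z') ∨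
      ∃ y ∈ cell φ κ i0, Tiny φ κ sz S y := by
  classical
  by_contra hcon
  rw [not_or] at hcon
  obtain ⟨hcon, hcon2⟩ := hcon
  push Not at hcon hcon2
  obtain ⟨hLS, ρ, hρ, hz⟩ := hS
  let L := kers Γ
  have : CompleteSpace L := (kers_closed Γ).completeSpace_coe
  have hz' : ∀ v : L, ‖v‖ ≤ ρ → ∀ i ∈ S, z + v ∈ cell φ κ i := fun v hv => hz v v.2 hv
  have hz0 : ∀ i ∈ S, z ∈ cell φ κ i := fun i hi => by
    simpa using hz' 0 (by simpa using hρ.le) i hi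
  have hv2 : ∀ (v : L), ∀ i ∈ S, φ i v = φ i0 v := fun v i hi => hLS v v.2 i hi i0 hi0
  have hSeq : ∀ i ∈ S, ∀ v : L, φ i (z + v) + κ i = φ i0 (z + v) + κ i0 := fun i hi v => by
    have h1 := hz0 i hi i0
    have h2 := hz0 i0 hi0 i
    rw [map_add, map_add, hv2 v i hi]; linarith
  have hmemL : ∀ j v, v ∈ kers (insert (φ j - φ i0) Γ) → v ∈ L ∧ φ j v = φ i0 v := fun j v hv =>
    ⟨fun γ hγ => hv γ (Finset.mem_insert_of_mem hγ),
      sub_eq_zero.1 (hv _ (Finset.mem_insert_self _ _))⟩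
  have hnofat : ∀ j, j ∉ S → ∀ (u : L) (t : ℝ), 0 < t →
      ¬ ∀ v : L, φ j v = φ i0 v → ‖v‖ ≤ t → ∀ i ∈ insert j S, z + u + v ∈ cell φ κ i := by
    intro j hj u t ht h
    refine hcon j hj (insert (φ j - φ i0) Γ) (z + u) (Finset.subset_insert _ _) (by simp)
      ⟨fun v hv i hi i' hi' => ?_, t, ht, fun v hv hvt =>
        h ⟨v, (hmemL j v hv).1⟩ (hmemL j v hv).2 hvt⟩
    have h1 : ∀ i ∈ insert j S, φ i v = φ i0 v := fun i hi => by
      rcases Finset.mem_insert.1 hi with rfl | hi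
      · exact (hmemL _ v hv).2
      · exact hv2 ⟨v, (hmemL j v hv).1⟩ i hi
    exact (h1 i hi).trans (h1 i' hi').symm
  let J := {j // j ∉ S}
  let β : J → ℝ := fun j => (φ i0 z + κ i0) - (φ j z + κ j)
  have hβ1 : ∀ j : J, ρ * ‖res L (φ i0 - φ j)‖ ≤ β j := fun j => by
    refine aff_bound _ hρ fun v hv => ?_
    have := hz' v hv i0 hi0 j
    simp only [map_add, res_apply, sub_apply, β] at this ⊢
    linarith
  have hβ : ∀ j : J, 0 < β j := fun j => by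
    by_contra h
    push Not at h
    have h1 := hβ1 j
    have h2 : 0 ≤ ρ * ‖res L (φ i0 - φ j)‖ := by positivity
    have h4 : β j = 0 := by linarith
    refine hnofat j j.2 0 ρ hρ fun v hvj hvρ i hi => ?_
    simp only [ZeroMemClass.coe_zero, add_zero]
    rcases Finset.mem_insert.1 hi with rfl | hi
    · intro k
      have := hz' v hvρ i0 hi0 k
      simp only [map_add, β] at this h4 ⊢
      linarith
    · exact hz' v hvρ i hi
  let q : J → L →L[ℝ] ℝ := fun j => (β j)⁻¹ • res L (φ j - φ i0)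
  have hq : ∀ (j : J) (v : L), φ j v - φ i0 v = β j * q j v := fun j v => by
    simp only [q, smul_apply, smul_eq_mul, res_apply, sub_apply]
    rw [← mul_assoc, mul_inv_cancel₀ (hβ j).ne', one_mul]
  have hl : ∀ (j : J) (v : L),
      φ j (z + v) + κ j = φ i0 (z + v) + κ i0 + β j * (q j v - 1) := fun j v => by
    have := hq j v
    simp only [map_add, β] at this ⊢
    linarith
  have hin : ∀ v : L, (∀ j, q j v ≤ 1) → ∀ i ∈ S, z + v ∈ cell φ κ i := fun v hv i hi k => by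
    rw [hSeq i hi]
    by_cases hk : k ∈ S
    · exact (hSeq k hk v).le
    · have h1 := hl ⟨k, hk⟩ v
      have h2 := mul_nonpos_of_nonneg_of_nonpos (hβ ⟨k, hk⟩).le (sub_nonpos.2 (hv ⟨k, hk⟩))
      simp only at h1
      linarith
  obtain ⟨K, hK, B⟩ : ∃ K, 0 < K ∧ Body q ρ⁻¹ K := by
    have hK : 0 < 2 * (C * sz i0) := by have := T.C_pos; have := T.sz_pos i0; positivity
    refine ⟨_, hK, inv_pos.2 hρ, hK, fun j => ?_, fun v hv => ?_⟩
    · refine ContinuousLinearMap.opNorm_le_bound _ (inv_pos.2 hρ).le fun v => ?_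
      have h1 := (res L (φ i0 - φ j)).le_opNorm v
      have h2 := hβ1 j
      have h3 : res L (φ i0 - φ j) v = -(β j * q j v) := by
        rw [← hq]; simp [res_apply]
      rw [h3, norm_neg, norm_mul, Real.norm_eq_abs, abs_of_pos (hβ j)] at h1
      rw [le_inv_mul_iff₀ hρ]
      refine le_of_mul_le_mul_left ?_ (hβ j)
      nlinarith [norm_nonneg v]
    · have h1 := T.outer i0 _ (hin v hv i0 hi0)
      have h2 := T.outer i0 _ (hz0 i0 hi0)
      have h3 := norm_sub_le_norm_sub_add_norm_sub (z + v) (ctr i0) z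
      rw [add_sub_cancel_left, norm_sub_rev (ctr i0)] at h3
      have : ‖(v : X)‖ = ‖v‖ := rfl
      linarith
  obtain ⟨v0, hv0⟩ := kers_ne hinf Γ
  obtain ⟨x0, hx0⟩ := B.exists_bd v0 hv0
  have hout : ∀ w, Ok q w → ∃ j : J, ∃ x ∈ cell φ κ j, ‖x - (z + w.1)‖ ≤ w.2 := fun w hw => by
    obtain ⟨x, j, hx, hj⟩ := B.exists_out hw
    obtain ⟨k, hk⟩ := T.hcov (z + x)
    refine ⟨⟨k, fun hkS => ?_⟩, z + x, hk, by rw [add_sub_add_left_eq_sub]; exact hx⟩
    have h1 := hk j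
    rw [hl, hSeq k hkS] at h1
    have := mul_pos (hβ j) (sub_pos.2 hj)
    linarith
  by_cases hI : ∀ r : ℝ, 0 < r → ∀ w, Ok q w → ∃ w', Ok q w' ∧ Sub w' w ∧
      ∀ j : J, ∀ x ∈ cell φ κ j, ‖x - (z + w'.1)‖ ≤ w'.2 → sz j < r
  · have h1 : ∀ (n : ℕ) (w : {w // Ok q w}), ∃ w' : {w // Ok q w}, Sub w'.1 w.1 ∧
        ∀ j : J, ∀ x ∈ cell φ κ j, ‖x - (z + w'.1.1)‖ ≤ w'.1.2 → sz j < 1 / ((n : ℝ) + 1) := by
      intro n w
      obtain ⟨w', h1, h2, h3⟩ := hI (1 / ((n : ℝ) + 1)) (by positivity) w.1 w.2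
      exact ⟨⟨w', h1⟩, h2, h3⟩
    choose nx hnx1 hnx2 using h1
    let w : ℕ → {w // Ok q w} := fun n => Nat.rec ⟨(x0, 1), hx0, one_pos⟩ nx n
    obtain ⟨-, hτ, y, hy⟩ := nested (fun n => (w n).1) (fun n => (w n).2.2) fun n => hnx1 n (w n)
    have hyX : ∀ n, ‖(z + y) - (z + (w n).1.1)‖ ≤ (w n).1.2 := fun n => by
      rw [add_sub_add_left_eq_sub]; exact hy n
    refine hcon2 (z + y) (hin y (B.le_one_of_nested _ (fun n => (w n).2) hτ hy) i0 hi0)
      ⟨fun r hr => ?_, fun τ hτ0 => ?_⟩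
    · obtain ⟨n, hn⟩ := exists_nat_one_div_lt hr
      refine ⟨(w (n + 2)).1.2, (w (n + 2)).2.2, fun j hj x hx hxy => ?_⟩
      refine (hnx2 n (w n) ⟨j, hj⟩ x hx ?_).trans hn
      have h2 : Sub (w (n + 2)).1 (w (n + 1)).1 := hnx1 (n + 1) (w (n + 1))
      unfold Sub at h2
      have h3 := norm_sub_le_norm_sub_add_norm_sub x (z + y) (z + (w (n + 1)).1.1)
      have h4 := norm_sub_le_norm_sub_add_norm_sub (z + y) (z + (w (n + 2)).1.1)
        (z + (w (n + 1)).1.1)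
      have h5 : ‖(z + (w (n + 2)).1.1) - (z + (w (n + 1)).1.1)‖
          = ‖(w (n + 2)).1.1 - (w (n + 1)).1.1‖ := by
        rw [add_sub_add_left_eq_sub]; rfl
      change ‖x - (z + (w (n + 1)).1.1)‖ ≤ (w (n + 1)).1.2
      linarith [hyX (n + 2)]
    · obtain ⟨n, hn⟩ := (hτ.eventually (gt_mem_nhds (half_pos hτ0))).exists
      obtain ⟨j, x, hx, hxw⟩ := hout _ (w n).2
      refine ⟨j, j.2, x, hx, ?_⟩
      have h3 := norm_sub_le_norm_sub_add_norm_sub x (z + (w n).1.1) (z + y)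
      rw [norm_sub_rev (z + (w n).1.1)] at h3
      linarith [hyX n]
  push Not at hI
  obtain ⟨r, hr, w00, hw00, hbig⟩ := hI
  have hw0 : Ok q (w00.1, min (w00.2 / 2) 1) := ⟨hw00.1, lt_min (half_pos hw00.2) one_pos⟩
  have hw0s : Sub (w00.1, min (w00.2 / 2) 1) w00 :=
    sub_self_of_le _ (by linarith [min_le_left (w00.2 / 2) 1])
  have hgood : ∀ w', Ok q w' → Sub w' (w00.1, min (w00.2 / 2) 1) → ∃ (j : J) (a : X),
      (∃ x, ‖x - (z + w'.1)‖ ≤ w'.2 ∧ x ∈ cell φ κ j) ∧ Inner φ κ r j a ∧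
        ‖a - z‖ ≤ K + 1 + C * r := by
    intro w' h1 h2
    obtain ⟨j, x, hx, hxw, hj⟩ := hbig w' h1 (h2.trans hw0s hw0.2)
    obtain ⟨a, ha1, ha2⟩ := T.plump hr hj hx
    refine ⟨j, a, ⟨x, hxw, hx⟩, ha2, ?_⟩
    have h3 := norm_sub_le_norm_sub_add_norm_sub a x z
    have h4 := norm_sub_le_norm_sub_add_norm_sub x (z + w'.1) z
    rw [add_sub_cancel_left] at h4
    have h5 : ‖(w'.1 : X)‖ ≤ K := B.hK _ h1.1.1
    unfold Sub at h2
    have h6 := min_le_right (w00.2 / 2) 1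
    have h7 := norm_nonneg (w'.1 - w00.1)
    have h8 := h1.2
    simp only at h2
    linarith
  let Small : J → ℝ → Prop := fun j ε => ∀ i ∈ S, β j ≤ ε * ‖φ j - φ i‖
  have hvis : ∀ w, Ok q w → w.2 ≤ 1 → ∃ θ : ℝ, 0 < θ ∧ 2 * θ ≤ w.2 ∧ ∀ (j : J) x,
      ‖x - (z + w.1)‖ ≤ θ → x ∈ cell φ κ j → Sees q w j ∨ Small j w.2 := by
    intro w hw _
    have hT := hw.2
    obtain ⟨η, hη, hη1, hη2⟩ : ∃ η : ℝ, 0 < η ∧ η ≤ 1 / 2 ∧ 2 * K * η ≤ w.2 := by
      refine ⟨min (1 / 2) (w.2 / (2 * K)), by positivity, min_le_left _ _, ?_⟩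
      rw [mul_comm, ← le_div_iff₀ (by positivity)]; exact min_le_right _ _
    refine ⟨w.2 * η, by positivity, by nlinarith, fun j x hx hxj => ?_⟩
    by_contra h
    rw [not_or] at h
    obtain ⟨h1, h2⟩ := h
    simp only [Small] at h2
    push Not at h2
    obtain ⟨i, hi, h2⟩ := h2
    have h3 := hxj i
    have h4 := hl j w.1
    rw [← hSeq i hi] at h4
    have h5 := (φ j - φ i).le_opNorm (x - (z + w.1))
    have h6 := le_abs_self ((φ j - φ i) (x - (z + w.1)))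
    rw [Real.norm_eq_abs] at h5
    have h7 : (φ j - φ i) (x - (z + w.1)) = φ j x - φ i x - (φ j (z + w.1) - φ i (z + w.1)) := by
      simp only [map_sub, sub_apply]
    have h8 : ‖φ j - φ i‖ * ‖x - (z + w.1)‖ ≤ ‖φ j - φ i‖ * (w.2 * η) :=
      mul_le_mul_of_nonneg_left hx (norm_nonneg _)
    have h9 : β j * (1 - q j w.1) ≤ β j * η := by nlinarith
    have h10 := le_of_mul_le_mul_left h9 (hβ j)
    refine h1 ⟨(1 + 2 * η) • w.1, ?_, ?_⟩
    · have : (1 + 2 * η) • w.1 - w.1 = (2 * η) • w.1 := by rw [add_smul, one_smul]; abel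
      rw [this, norm_smul, Real.norm_eq_abs, abs_of_pos (by positivity)]
      nlinarith [B.hK _ hw.1.1]
    · rw [map_smul, smul_eq_mul]
      nlinarith
  have havoid : ∀ (j : J) w, Ok q w → ∃ w', Ok q w' ∧ Sub w' w ∧
      ∀ x, ‖x - (z + w'.1)‖ ≤ w'.2 → x ∉ cell φ κ j := by
    intro j w hw
    have hT := hw.2
    obtain ⟨x', h1, h2, h3⟩ : ∃ x', Bd q x' ∧ ‖x' - w.1‖ ≤ w.2 / 2 ∧ q j x' ≠ 1 := by
      by_contra h
      push Not at h
      obtain ⟨h1, t, ht, h2⟩ := B.flat (w := (w.1, w.2 / 2)) ⟨hw.1, half_pos hT⟩ j h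
      refine hnofat j j.2 w.1 t ht fun v hvj hvt i hi => ?_
      have h3 : q j v = 0 := by
        have := hq j v
        simp only [hvj, sub_self] at this
        exact (mul_eq_zero.1 this.symm).resolve_left (hβ j).ne'
      have h4 := hin _ (h2 v h3 hvt)
      have e : z + (w.1 : X) + v = z + ((w.1 + v : L) : X) := by simp [add_assoc]
      rw [e]
      rcases Finset.mem_insert.1 hi with rfl | hi
      · intro k
        rw [hl, map_add (q j), h1, h3]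
        simpa using h4 i0 hi0 k
      · exact h4 i hi
    have h4 : z + x' ∉ cell φ κ j := fun h => by
      have h5 := h i0
      rw [hl] at h5
      have := mul_pos (hβ j) (sub_pos.2 (lt_of_le_of_ne (h1.1 j) h3))
      linarith
    obtain ⟨δ, hδ, hδ2⟩ := Metric.isOpen_iff.1 (cell_closed (φ := φ) (κ := κ) j).isOpen_compl _ h4
    refine ⟨(x', min (w.2 / 4) (δ / 2)), ⟨h1, by positivity⟩, ?_, fun x hx => hδ2 ?_⟩
    · unfold Sub; simp only; linarith [min_le_left (w.2 / 4) (δ / 2)]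
    · rw [mem_ball_iff_norm]
      simp only at hx
      linarith [min_le_right (w.2 / 4) (δ / 2)]
  obtain ⟨j, x, a, y, p, b, ε, g1, g2, g3, g5, g6, g7, g4, g8, g9⟩ :=
    game hrefl T.hinj hr L (fun j : J => (j : ι)) Subtype.val_injective B z Small hw0
      (min_le_right _ _) hgood hvis havoid
  have hyS := hin y g3
  have hxy := g2.mono_left Nat.hyperfilter_le_atTop
  have haD : ∀ n, ‖a n - (z + y)‖ ≤ K + 1 + C * r + ‖y‖ := fun n => by
    have : a n - (z + y) = (a n - z) - y := by abel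
    rw [this]
    exact (norm_sub_le _ _).trans (add_le_add (g6 n) le_rfl)
  have hD0 : 0 < K + 1 + C * r + ‖y‖ := by have := T.C_pos; positivity
  let E : Submodule ℝ (X →L[ℝ] ℝ) :=
    Submodule.span ℝ (insert p (Set.range fun γ : Γ => (γ : X →L[ℝ] ℝ)))
  have : FiniteDimensional ℝ E :=
    FiniteDimensional.span_of_finite ℝ ((Set.finite_range _).insert p)
  have hslope : ∀ i ∈ S, ∃ ψ, ψ ≠ 0 ∧
      Tendsto (fun n => φ (j n) - φ i) (hyperfilter ℕ) (𝓝 ψ) := by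
    intro i hi
    have hq' : ∀ n (v : L), (φ (j n) - φ i) v = β (j n) * q (j n) v := fun n v => by
      rw [← hq, sub_apply, hv2 v i hi]
    have hρ' : 0 < ρ⁻¹ := inv_pos.2 hρ
    have hw : ∀ᶠ n in (hyperfilter ℕ : Filter ℕ), ∃ w ∈ E,
        ‖φ (j n) - φ i - w‖ ≤ (K + 1 + ρ⁻¹) * ε n * ‖φ (j n) - φ i‖ := by
      refine g8.mono fun n hn => ?_
      have key : ∀ (c : ℝ) (f : X →L[ℝ] ℝ), (∀ v : L, f v = q (j n) v - c * p v) →
          ∃ w ∈ E, ‖φ (j n) - φ i - w‖ ≤ β (j n) * ‖f‖ := by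
        intro c f hf
        refine ⟨φ (j n) - φ i - β (j n) • f, ?_, ?_⟩
        · have h1 : φ (j n) - φ i - β (j n) • f - (β (j n) * c) • p ∈ E := by
            refine Submodule.span_mono (Set.subset_insert _ _)
              (mem_span_of_kers Γ _ fun v hv => ?_)
            have h2 := hq' n ⟨v, hv⟩
            have h3 := hf ⟨v, hv⟩
            simp only [sub_apply, smul_apply, smul_eq_mul] at h2 h3 ⊢
            rw [h2, h3]; ring
          have h2 : (β (j n) * c) • p ∈ E :=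
            E.smul_mem _ (Submodule.subset_span (Set.mem_insert _ _))
          simpa using E.add_mem h1 h2
        · have h1 : φ (j n) - φ i - (φ (j n) - φ i - β (j n) • f) = β (j n) • f := by
            ext v; simp
          rw [h1]
          refine (ContinuousLinearMap.opNorm_smul_le _ _).trans ?_
          rw [Real.norm_eq_abs, abs_of_pos (hβ _)]
      have hN := norm_nonneg (φ (j n) - φ i)
      have hb0 := hβ (j n)
      rcases hn with ⟨⟨x', h1, h2⟩, h3⟩ | h1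
      · obtain ⟨f, hf1, hf2⟩ := exists_extension_norm_eq L (q (j n) - res L p)
        obtain ⟨w, hwE, hw⟩ := key 1 f fun v => by rw [hf1, one_mul]; rfl
        refine ⟨w, hwE, hw.trans ?_⟩
        have h4 := (φ (j n) - φ i).le_opNorm (x' : X)
        have h5 := le_abs_self ((φ (j n) - φ i) (x' : X))
        rw [Real.norm_eq_abs] at h4
        have h6 := mul_le_mul_of_nonneg_left h2 hb0.le
        have h7 : ‖φ (j n) - φ i‖ * ‖(x' : X)‖ ≤ ‖φ (j n) - φ i‖ * (K + 1) :=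
          mul_le_mul_of_nonneg_left h1 hN
        rw [← hq'] at h6
        have h8 : β (j n) ≤ ‖φ (j n) - φ i‖ * (K + 1 + ρ⁻¹) := by nlinarith
        have h9 : ‖f‖ ≤ ε n := hf2.trans_le h3
        calc β (j n) * ‖f‖ ≤ ‖φ (j n) - φ i‖ * (K + 1 + ρ⁻¹) * ε n :=
              mul_le_mul h8 h9 (norm_nonneg _) (by positivity)
          _ = _ := by ring
      · obtain ⟨f, hf1, hf2⟩ := exists_extension_norm_eq L (q (j n))
        obtain ⟨w, hwE, hw⟩ := key 0 f fun v => by rw [hf1]; simp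
        refine ⟨w, hwE, hw.trans ?_⟩
        have h2 := h1 i hi
        have h9 : ‖f‖ ≤ K + 1 + ρ⁻¹ := by linarith [hf2.trans_le (B.hM (j n))]
        calc β (j n) * ‖f‖ ≤ ε n * ‖φ (j n) - φ i‖ * (K + 1 + ρ⁻¹) :=
              mul_le_mul h2 h9 (norm_nonneg _) (hb0.le.trans h2)
          _ = _ := by ring
    refine slope_lim hr (hyperfilter ℕ) (hyS i hi) (fun n => j n) x a g1 hxy g5 hD0 haD E
      (fun n => if ∃ w ∈ E, ‖φ (j n) - φ i - w‖ ≤ (K + 1 + ρ⁻¹) * ε n * ‖φ (j n) - φ i‖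
        then (K + 1 + ρ⁻¹) * ε n else 1) ?_ (fun n => ?_) (fun n h => ?_)
    · have h1 : Tendsto (fun n => (K + 1 + ρ⁻¹) * ε n) (hyperfilter ℕ) (𝓝 0) := by
        simpa using g4.const_mul (K + 1 + ρ⁻¹)
      exact h1.congr' (hw.mono fun n hn => (if_pos hn).symm)
    · split_ifs with h
      · exact h
      · exact ⟨0, E.zero_mem, by simp⟩
    · have h1 := g1 n i
      have h2 := hz0 i hi (j n)
      rw [h] at h1 h2
      have h3 := T.hinj _ _ h (by linarith)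
      exact (j n).2 (h3 ▸ hi)
  obtain ⟨ψ, -, hψ⟩ := hslope i0 hi0
  have hp : Tendsto (fun n => φ (j n)) (hyperfilter ℕ) (𝓝 (ψ + φ i0)) := by
    simpa using hψ.add_const (φ i0)
  obtain ⟨k, hk1, hk2, hk3⟩ := real_cell T.hcov hr (hyperfilter ℕ) (hyS i0 hi0) (fun n => j n)
    x a g1 hxy g5 haD _ hp b g7
  refine g9 ⟨k, fun hkS => ?_⟩ hk2 hk3
  obtain ⟨ψ', h1, h2⟩ := hslope k hkS
  have h3 := hp.sub_const (φ k)
  rw [hk1, sub_self, ← hk1] at h3
  exact h1 (tendsto_nhds_unique h2 h3)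

end Pool.Agent.P.MP_73700b_an.Reg
end

-- part Pool.Agent.P.MP_73700b_an.RegF
section

/-!
Regular tilings by uniformly fat tiles of reflexive spaces are not point-finite.
-/

namespace Pool.Agent.P.MP_73700b_an.Reg

open Filter Topology

variable {X : Type*} [NormedAddCommGroup X] [NormedSpace ℝ X] {ι : Type*}
variable {φ : ι → X →L[ℝ] ℝ} {κ : ι → ℝ} {sz : ι → ℝ} {ctr : ι → X} {C : ℝ}

theorem chain [CompleteSpace X] (hinf : ¬ FiniteDimensional ℝ X)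
    (hrefl : Function.Surjective (NormedSpace.inclusionInDoubleDual ℝ X))
    (T : Cells φ κ sz ctr C) (hpf : ∀ x, {i | x ∈ cell φ κ i}.Finite) (i0 : ι) (S0 : Finset ι)
    (hi0 : i0 ∉ S0) : ∃ S : Finset ι, Disjoint S S0 ∧ ∃ y ∈ cell φ κ i0, Tiny φ κ sz S y := by
  classical
  by_contra hcon
  push Not at hcon
  let Γ0 : Finset (X →L[ℝ] ℝ) := S0.image fun i => φ i0 - φ i
  let P : Finset ι × Finset (X →L[ℝ] ℝ) × X → Prop := fun t =>
    i0 ∈ t.1 ∧ Fat φ κ t.1 t.2.1 t.2.2 ∧ Γ0 ⊆ t.2.1 ∧ t.2.2 - ctr i0 ∈ kers Γ0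
  have hmem : ∀ t, P t → ∀ i ∈ t.1, t.2.2 ∈ cell φ κ i := by
    rintro t ⟨-, ⟨-, ρ, hρ, h⟩, -⟩ i hi
    simpa using h 0 (Submodule.zero_mem _) (by simpa using hρ.le) i hi
  have h0 : P ({i0}, Γ0, ctr i0) := by
    refine ⟨Finset.mem_singleton_self _, ⟨fun v _ i hi i' hi' => ?_, sz i0, T.sz_pos i0,
      fun v _ hv i hi => ?_⟩, subset_rfl, by simp⟩
    · rw [Finset.mem_singleton.1 hi, Finset.mem_singleton.1 hi']
    · rw [Finset.mem_singleton.1 hi]; exact T.inner i0 v hv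
  have hstep : ∀ t : {t // P t}, ∃ t' : {t // P t}, t.1.1 ⊂ t'.1.1 := by
    rintro ⟨⟨S, Γ, z⟩, ht⟩
    have hm := hmem _ ht
    obtain ⟨h1, h2, h3, h4⟩ := ht
    simp only at h1 h2 h3 h4 hm
    rcases step hinf hrefl T S h1 Γ z h2 with ⟨j, hj, Γ', z', h5, h6, h7⟩ | ⟨y, hy, hy2⟩
    · refine ⟨⟨(insert j S, Γ', z'), Finset.mem_insert_of_mem h1, h7, h3.trans h5, ?_⟩,
        Finset.ssubset_insert hj⟩
      have : z' - ctr i0 = (z' - z) + (z - ctr i0) := by abel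
      simp only
      rw [this]
      exact Submodule.add_mem _ (fun γ hγ => h6 γ (h3 hγ)) h4
    · refine absurd hy2 (hcon S (Finset.disjoint_left.2 fun i hi hi' => ?_) y hy)
      have h5 := h4 _ (Finset.mem_image_of_mem (fun i => φ i0 - φ i) hi')
      have h6 := hm i hi i0
      have h7 := (T.inner i0).gap (T.sz_pos i0) i
      simp only [map_sub, sub_apply] at h5
      have h8 : 0 ≤ sz i0 * ‖φ i0 - φ i‖ := by have := T.sz_pos i0; positivity
      have h9 : sz i0 * ‖φ i0 - φ i‖ = 0 := by linarith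
      have h10 : φ i0 = φ i := sub_eq_zero.1 (norm_eq_zero.1
        ((mul_eq_zero.1 h9).resolve_left (T.sz_pos i0).ne'))
      rw [h9] at h7
      rw [h10] at h6 h7
      exact hi0 (T.hinj _ _ h10 (by linarith) ▸ hi')
  choose nx hnx using hstep
  let S : ℕ → {t // P t} := fun n => nx^[n] ⟨_, h0⟩
  have hS : StrictMono fun n => (S n).1.1 := strictMono_nat_of_lt_succ fun n => by
    simp only [S, Function.iterate_succ_apply']
    exact hnx _
  obtain ⟨x, hx⟩ := exists_weak_lim hrefl (hyperfilter ℕ) (fun n => (S n).1.2.2)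
    (C * sz i0 + ‖ctr i0‖) fun n => by
      linarith [T.outer i0 _ (hmem _ (S n).2 i0 (S n).2.1), norm_sub_norm_le (S n).1.2.2 (ctr i0)]
  have hall : ∀ n, ∀ i ∈ (S n).1.1, x ∈ cell φ κ i := fun n i hi k =>
    le_of_tendsto_of_tendsto ((hx (φ k)).add_const (κ k)) ((hx (φ i)).add_const (κ i))
      (((eventually_ge_atTop n).filter_mono Nat.hyperfilter_le_atTop).mono fun m hm =>
        hmem _ (S m).2 i (hS.monotone hm hi) k)
  have hfin := hpf x
  have h1 : ∀ n, (S n).1.1.card ≤ hfin.toFinset.card := fun n =>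
    Finset.card_le_card fun i hi => hfin.mem_toFinset.2 (hall n i hi)
  have h2 : StrictMono fun n => (S n).1.1.card := fun a b hab => Finset.card_lt_card (hS hab)
  have h3 := h2.id_le (hfin.toFinset.card + 1)
  have h4 := h1 (hfin.toFinset.card + 1)
  simp only [id] at h3
  omega

theorem main_idx [CompleteSpace X] (hinf : ¬ FiniteDimensional ℝ X)
    (hrefl : Function.Surjective (NormedSpace.inclusionInDoubleDual ℝ X))
    (T : Cells φ κ sz ctr C) : ∃ x, {i | x ∈ cell φ κ i}.Infinite := by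
  by_contra hpf
  push Not at hpf
  have hC := T.C_pos
  let P : Finset ι × X × ℝ → Prop := fun t => Tiny φ κ sz t.1 t.2.1 ∧ 0 < t.2.2
  obtain ⟨i0, -⟩ := T.hcov 0
  obtain ⟨S0, -, y0, -, hy0⟩ := chain hinf hrefl T hpf i0 ∅ (by simp)
  have hstep : ∀ (n : ℕ) (t : {t // P t}), ∃ t' : {t // P t}, Disjoint t'.1.1 t.1.1 ∧
      Sub t'.1.2 t.1.2 ∧ ∀ j, j ∉ t'.1.1 → ∀ x ∈ cell φ κ j, ‖x - t'.1.2.1‖ ≤ t'.1.2.2 →
        sz j < 1 / ((n : ℝ) + 1) := by
    rintro n ⟨⟨S, y, τ⟩, ⟨h1, h2⟩, hτ⟩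
    simp only at h1 h2 hτ
    obtain ⟨τ1, hτ1, h3⟩ := h1 (τ / (8 * C)) (by positivity)
    obtain ⟨j, hj, x, hx, hxy⟩ := h2 (min τ1 (τ / 4)) (by positivity)
    have h4 := h3 j hj x hx (hxy.trans (min_le_left _ _))
    obtain ⟨S', h5, y', hy', h6⟩ := chain hinf hrefl T hpf j S hj
    obtain ⟨τ2, hτ2, h7⟩ := h6.1 (1 / ((n : ℝ) + 1)) (by positivity)
    refine ⟨⟨(S', y', min τ2 (τ / 4)), h6, by positivity⟩, h5, ?_,
      fun k hk x' hx' h8 => h7 k hk x' hx' (h8.trans (min_le_left _ _))⟩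
    unfold Sub
    simp only
    have a1 := T.outer j y' hy'
    have a2 := T.outer j x hx
    have a3 := norm_sub_le_norm_sub_add_norm_sub y' (ctr j) x
    rw [norm_sub_rev (ctr j)] at a3
    have a4 := norm_sub_le_norm_sub_add_norm_sub y' x y
    rw [lt_div_iff₀ (by positivity)] at h4
    linarith [min_le_right τ1 (τ / 4), min_le_right τ2 (τ / 4)]
  choose nx h1 h2 h3 using hstep
  let t : ℕ → {t // P t} := fun n => Nat.rec ⟨(S0, y0, 1), hy0, one_pos⟩ nx n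
  obtain ⟨-, -, y, hy⟩ := nested (fun n => (t n).1.2) (fun n => (t n).2.2) fun n => h2 n (t n)
  obtain ⟨k, hk⟩ := T.hcov y
  obtain ⟨n, hn⟩ := exists_nat_one_div_lt (T.sz_pos k)
  have hmem : ∀ m, n ≤ m → k ∈ (t (m + 1)).1.1 := by
    intro m hm
    by_contra h
    have h4 := h3 m (t m) k h y hk (hy (m + 1))
    have h5 : 1 / ((m : ℝ) + 1) ≤ 1 / ((n : ℝ) + 1) := Nat.one_div_le_one_div hm
    linarith
  exact Finset.disjoint_left.1 (h1 (n + 1) (t (n + 1))) (hmem (n + 1) (by omega)) (hmem n le_rfl)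

theorem main (X : Type*) [NormedAddCommGroup X] [NormedSpace ℝ X] [CompleteSpace X]
    (hinf : ¬ FiniteDimensional ℝ X)
    (hrefl : Function.Surjective (NormedSpace.inclusionInDoubleDual ℝ X))
    (𝓣 : Set (Set X)) (l : 𝓣 → X →ᴬ[ℝ] ℝ) (C : ℝ) (hcov : ⋃₀ 𝓣 = Set.univ)
    (hreg : ∀ T : 𝓣, (T : Set X) = {x | ∀ T' : 𝓣, l T' x ≤ l T x})
    (hfat : ∀ T ∈ 𝓣, ∃ (a : X) (s : ℝ), 0 < s ∧ Metric.closedBall a s ⊆ T ∧
      T ⊆ Metric.closedBall a (C * s)) :
    ∃ x : X, {T ∈ 𝓣 | x ∈ T}.Infinite := by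
  let φ : 𝓣 → X →L[ℝ] ℝ := fun T => (l T).contLinear
  let κ : 𝓣 → ℝ := fun T => l T 0
  have hl : ∀ T x, l T x = φ T x + κ T := fun T x => by
    have := (l T).map_vadd 0 x
    rw [vadd_eq_add, add_zero] at this
    exact this
  have hc : ∀ T : 𝓣, (T : Set X) = cell φ κ T := fun T => by
    rw [hreg T]; simp only [hl]; rfl
  choose ctr sz h1 h2 h3 using fun T : 𝓣 => hfat T T.2
  have hT : Cells φ κ sz ctr (max C 1) := by
    refine ⟨fun i j hφ hκ => Subtype.ext ?_, fun x => ?_, by positivity, h1, fun i h hh => ?_,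
      fun i x hx => ?_⟩
    · rw [hc, hc]; unfold cell; rw [hφ, hκ]
    · obtain ⟨T, hT, hx⟩ : x ∈ ⋃₀ 𝓣 := hcov ▸ Set.mem_univ x
      exact ⟨⟨T, hT⟩, hc ⟨T, hT⟩ ▸ hx⟩
    · rw [← hc]
      exact h2 i (by simpa [mem_closedBall_iff_norm] using hh)
    · rw [← hc] at hx
      exact (mem_closedBall_iff_norm.1 (h3 i hx)).trans
        (mul_le_mul_of_nonneg_right (le_max_left _ _) (h1 i).le)
  obtain ⟨x, hx⟩ := main_idx hinf hrefl hT
  refine ⟨x, (hx.image Subtype.val_injective.injOn).mono ?_⟩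
  rintro _ ⟨T, hT, rfl⟩
  exact ⟨T.2, (hc T).symm ▸ hT⟩

end Pool.Agent.P.MP_73700b_an.Reg
end
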